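import Pool.Agent.Helper70.EngelPull

/-!
The foliation charts of `F`, and the cone neighbourhoods of `ξ` and `F`.
-/

open scoped Manifold ContDiff Topology
open Set VectorField Bundle Pool.Agent.EngelPerturbation

namespace Pool.Agent.Helper70.Engel

lemma isFoliation_F : IsFoliation F := by
  intro m₀
  refine ⟨fun y => ‖chartAt V m₀ y‖ ^ 2, ?_⟩
  filter_upwards [(chartAt V m₀).open_source.mem_nhds (mem_chart_source V m₀)] with y hy
  obtain ⟨x, hx, rfl⟩ := P_surj y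
  obtain ⟨c, hc, hev⟩ := chart_comp_P (chart_mem_atlas V m₀) hx hy
  have hsm : ContMDiffAt (𝓡 4) 𝓘(ℝ, ℝ) ∞ (fun y => ‖chartAt V m₀ y‖ ^ 2) (P x) := by
    have h2 : ContMDiffAt (𝓡 4) (𝓡 4) ∞ (chartAt V m₀) (P x) :=
      contMDiffAt_extChartAt' (I := 𝓡 4) (x := m₀) hy |>.congr_of_eventuallyEq
        (Filter.Eventually.of_forall fun m => by simp)
    exact ContMDiffAt.comp (I' := 𝓡 4) (P x) (g := fun z : V => ‖z‖ ^ 2) (f := chartAt V m₀)
      (contDiff_norm_sq ℝ).contDiffAt.contMDiffAt h2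
  -- the derivative pulled back to the model
  have hcomp : HasFDerivAt (fun z : V => ‖cL ((c : ℂˣ) : ℂ) z‖ ^ 2)
      ((2 * ‖((c : ℂˣ) : ℂ)‖ ^ 2) • (innerSL ℝ x : V →L[ℝ] ℝ)) x := by
    have h3 : (fun z : V => ‖cL ((c : ℂˣ) : ℂ) z‖ ^ 2) =
        fun z : V => ‖((c : ℂˣ) : ℂ)‖ ^ 2 * ‖z‖ ^ 2 := by
      funext z; rw [cL_norm, mul_pow]
    rw [h3]
    have h4 := (hasStrictFDerivAt_norm_sq x).hasFDerivAt.const_mul (‖((c : ℂˣ) : ℂ)‖ ^ 2)
    have h5 : (2 * ‖((c : ℂˣ) : ℂ)‖ ^ 2) • (innerSL ℝ x : V →L[ℝ] ℝ) =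
        ‖((c : ℂˣ) : ℂ)‖ ^ 2 • (2 • innerSL ℝ x) := by
      ext v
      simp only [smul_apply, smul_eq_mul, nsmul_eq_mul]
      push_cast
      ring
    rw [h5]
    exact h4
  have hd : ∀ v : V, mfderiv (𝓡 4) 𝓘(ℝ, ℝ) (fun y => ‖chartAt V m₀ y‖ ^ 2) (P x) (dP x v) =
      (2 * ‖((c : ℂˣ) : ℂ)‖ ^ 2) * inner ℝ x v := by
    intro v
    have h5 : HasMFDerivAt (𝓡 4) 𝓘(ℝ, ℝ) (fun z => ‖chartAt V m₀ (P z)‖ ^ 2) x
        ((mfderiv (𝓡 4) 𝓘(ℝ, ℝ) (fun y => ‖chartAt V m₀ y‖ ^ 2) (P x)).comp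
          (mfderiv (𝓡 4) (𝓡 4) P x)) :=
      (hsm.mdifferentiableAt (by simp)).hasMFDerivAt.comp x
        ((P_contMDiffAt hx).mdifferentiableAt (by simp)).hasMFDerivAt
    have h6 : HasMFDerivAt (𝓡 4) 𝓘(ℝ, ℝ) (fun z => ‖chartAt V m₀ (P z)‖ ^ 2) x
        ((2 * ‖((c : ℂˣ) : ℂ)‖ ^ 2) • (innerSL ℝ x : V →L[ℝ] ℝ)) := by
      refine hcomp.hasMFDerivAt.congr_of_eventuallyEq ?_
      filter_upwards [hev] with z hz
      rw [hz.2]
    have h7 := congrArg (fun L : V →L[ℝ] ℝ => L v) (hasMFDerivAt_unique h5 h6)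
    exact h7
  refine ⟨hsm, ?_, ?_⟩
  · intro h0
    have h1 := hd x
    rw [h0] at h1
    have h2 : (0 : ℝ) = (2 * ‖((c : ℂˣ) : ℂ)‖ ^ 2) * inner ℝ x x := h1
    rw [real_inner_self_eq_norm_sq] at h2
    have h3 : 0 < ‖((c : ℂˣ) : ℂ)‖ := norm_pos_iff.2 (Units.ne_zero _)
    have h4 : 0 < ‖x‖ := norm_pos_iff.2 hx
    have h5 : 0 < (2 * ‖((c : ℂˣ) : ℂ)‖ ^ 2) * ‖x‖ ^ 2 := by positivity
    linarith
  · intro v
    obtain ⟨w, rfl⟩ := dP_surj hx v
    rw [F, mem_pushS invS_SF hx, mem_SF, hd w]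
    have h3 : 0 < ‖((c : ℂˣ) : ℂ)‖ := norm_pos_iff.2 (Units.ne_zero _)
    have h9 : ((2 * ‖((c : ℂˣ) : ℂ)‖ ^ 2) * inner ℝ x w : ℝ) = 0 ↔ inner ℝ x w = 0 := by
      have h10 : (2 * ‖((c : ℂˣ) : ℂ)‖ ^ 2) ≠ 0 := by positivity
      simp [h10]
    exact h9.symm

/-- The cone of `M` attached to an invariant function. -/
def cone (q : V → V → ℝ) : Set (TangentBundle (𝓡 4) M) := {p | 0 < q (lift p.1) p.2}

/-- Invariance of the sign of a function on the tangent bundle of the model. -/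
def InvQ (q : V → V → ℝ) : Prop :=
  ∀ (c : Γ) (x v : V), x ≠ 0 → (0 < q (cL ((c : ℂˣ) : ℂ) x) (cL ((c : ℂˣ) : ℂ) v) ↔ 0 < q x v)

lemma isOpen_cone {q : V → V → ℝ} (hc : Continuous (Function.uncurry q)) (hq : InvQ q) :
    IsOpen (cone q) := by
  rw [isOpen_iff_mem_nhds]
  rintro ⟨m₀, v₀⟩ hp
  have hkey : ∀ p : TangentBundle (𝓡 4) M, p.1 ∈ (chartAt V m₀).source →
      (0 < q (chartAt V m₀ p.1) (trivializationAt V (TangentSpace (𝓡 4)) m₀ p).2 ↔ p ∈ cone q) := by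
    rintro ⟨m, v⟩ hm
    obtain ⟨c, hc1, hc2⟩ := triv_apply hm
    change 0 < q (chartAt V m₀ m) (trivializationAt V (TangentSpace (𝓡 4)) m₀ ⟨m, v⟩).2 ↔
      0 < q (lift m) v
    rw [hc2 v, ← hc1]
    exact hq c _ _ (lift_ne m)
  have hcont : ContinuousAt (fun p : TangentBundle (𝓡 4) M =>
      q (chartAt V m₀ p.1) (trivializationAt V (TangentSpace (𝓡 4)) m₀ p).2) ⟨m₀, v₀⟩ := by
    have h1 : ContinuousAt (fun p : TangentBundle (𝓡 4) M => chartAt V m₀ p.1) ⟨m₀, v₀⟩ := by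
      refine ContinuousAt.comp (f := fun p : TangentBundle (𝓡 4) M => p.1) ?_
        (FiberBundle.continuous_proj V (TangentSpace (𝓡 4) : M → Type)).continuousAt
      exact (chartAt V m₀).continuousAt (mem_chart_source V m₀)
    have h2 : ContinuousAt (fun p : TangentBundle (𝓡 4) M =>
        (trivializationAt V (TangentSpace (𝓡 4)) m₀ p)) ⟨m₀, v₀⟩ := by
      refine (trivializationAt V (TangentSpace (𝓡 4)) m₀).continuousAt ?_
      rw [TangentBundle.trivializationAt_source]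
      exact mem_chart_source V m₀
    exact ContinuousAt.comp (g := Function.uncurry q)
      (f := fun p : TangentBundle (𝓡 4) M => (chartAt V m₀ p.1,
        (trivializationAt V (TangentSpace (𝓡 4)) m₀ p).2)) hc.continuousAt (h1.prodMk h2.snd)
  have h3 : ∀ᶠ p : TangentBundle (𝓡 4) M in 𝓝 ⟨m₀, v₀⟩, p.1 ∈ (chartAt V m₀).source :=
    (FiberBundle.continuous_proj V (TangentSpace (𝓡 4) : M → Type)).continuousAt
      ((chartAt V m₀).open_source.mem_nhds (mem_chart_source V m₀))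
  have h4 := hcont.eventually (lt_mem_nhds ((hkey ⟨m₀, v₀⟩ (mem_chart_source V m₀)).2 hp))
  filter_upwards [h3, h4] with p hp1 hp2
  exact (hkey p hp1).1 hp2

/-- The quadratic function defining the cone around `ξ`. -/
noncomputable def qξ (x v : V) : ℝ :=
  inner ℝ (mJ x) v ^ 2 + inner ℝ (mK x) v ^ 2 - inner ℝ (mI x) v ^ 2 - inner ℝ x v ^ 2

/-- The quadratic function defining the cone around `F`. -/
noncomputable def qF (x v : V) : ℝ :=
  inner ℝ (mI x) v ^ 2 + inner ℝ (mJ x) v ^ 2 + inner ℝ (mK x) v ^ 2 - inner ℝ x v ^ 2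

lemma inner_mJ_cL (c : Γ) (x v : V) :
    inner ℝ (mJ (cL ((c : ℂˣ) : ℂ) x)) (cL ((c : ℂˣ) : ℂ) v) ^ 2 =
      ‖((c : ℂˣ) : ℂ)‖ ^ 4 * inner ℝ (mJ x) v ^ 2 ∧
    inner ℝ (mK (cL ((c : ℂˣ) : ℂ) x)) (cL ((c : ℂˣ) : ℂ) v) ^ 2 =
      ‖((c : ℂˣ) : ℂ)‖ ^ 4 * inner ℝ (mK x) v ^ 2 := by
  have hcases := Γ_cases c
  generalize ((c : ℂˣ) : ℂ) = z at hcases
  have h4 : ‖z‖ ^ 4 = (z.re * z.re + z.im * z.im) ^ 2 := by
    have : ‖z‖ ^ 4 = (‖z‖ ^ 2) ^ 2 := by ring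
    rw [this, ← Complex.normSq_eq_norm_sq, Complex.normSq_apply]
  rw [h4]
  rcases hcases with h | h <;>
  · simp only [inner_eq, cL_apply, mJ_apply, mK_apply, h]
    constructor <;> simp <;> ring

lemma inner_mI_cL (x v : V) (z : ℂ) :
    inner ℝ (mI (cL z x)) (cL z v) ^ 2 = ‖z‖ ^ 4 * inner ℝ (mI x) v ^ 2 ∧
    inner ℝ (cL z x) (cL z v) ^ 2 = ‖z‖ ^ 4 * inner ℝ x v ^ 2 := by
  constructor
  · rw [mI_cL, inner_cL]; ring
  · rw [inner_cL]; ring

lemma invQ_qξ : InvQ qξ := by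
  intro c x v _
  obtain ⟨h1, h2⟩ := inner_mJ_cL c x v
  obtain ⟨h3, h4⟩ := inner_mI_cL x v ((c : ℂˣ) : ℂ)
  have h5 : 0 < ‖((c : ℂˣ) : ℂ)‖ ^ 4 := by
    have : 0 < ‖((c : ℂˣ) : ℂ)‖ := norm_pos_iff.2 (Units.ne_zero _)
    positivity
  unfold qξ
  rw [h1, h2, h3, h4, ← mul_add, ← mul_sub, ← mul_sub]
  exact mul_pos_iff_of_pos_left h5

lemma invQ_qF : InvQ qF := by
  intro c x v _
  obtain ⟨h1, h2⟩ := inner_mJ_cL c x v
  obtain ⟨h3, h4⟩ := inner_mI_cL x v ((c : ℂˣ) : ℂ)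
  have h5 : 0 < ‖((c : ℂˣ) : ℂ)‖ ^ 4 := by
    have : 0 < ‖((c : ℂˣ) : ℂ)‖ := norm_pos_iff.2 (Units.ne_zero _)
    positivity
  unfold qF
  rw [h1, h2, h3, h4, ← mul_add, ← mul_add, ← mul_sub]
  exact mul_pos_iff_of_pos_left h5

lemma continuous_qξ : Continuous (Function.uncurry qξ) := by
  unfold qξ Function.uncurry
  have h1 : Continuous fun a : V × V => mJ a.1 := mJ.continuous.comp continuous_fst
  have h2 : Continuous fun a : V × V => mK a.1 := mK.continuous.comp continuous_fst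
  have h3 : Continuous fun a : V × V => mI a.1 := mI.continuous.comp continuous_fst
  exact ((((h1.inner continuous_snd).pow 2).add ((h2.inner continuous_snd).pow 2)).sub
    ((h3.inner continuous_snd).pow 2)).sub ((continuous_fst.inner continuous_snd).pow 2)

lemma continuous_qF : Continuous (Function.uncurry qF) := by
  unfold qF Function.uncurry
  have h1 : Continuous fun a : V × V => mJ a.1 := mJ.continuous.comp continuous_fst
  have h2 : Continuous fun a : V × V => mK a.1 := mK.continuous.comp continuous_fst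
  have h3 : Continuous fun a : V × V => mI a.1 := mI.continuous.comp continuous_fst
  exact ((((h3.inner continuous_snd).pow 2).add ((h1.inner continuous_snd).pow 2)).add
    ((h2.inner continuous_snd).pow 2)).sub ((continuous_fst.inner continuous_snd).pow 2)

lemma qξ_smul (x v : V) (c : ℝ) : qξ x (c • v) = c ^ 2 * qξ x v := by
  unfold qξ; simp only [inner_smul_right]; ring

lemma qF_smul (x v : V) (c : ℝ) : qF x (c • v) = c ^ 2 * qF x v := by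
  unfold qF; simp only [inner_smul_right]; ring

lemma qξ_pos {x v : V} (hx : x ≠ 0) (hv : v ∈ Sξ x) (hv0 : v ≠ 0) : 0 < qξ x v := by
  obtain ⟨a, b, rfl⟩ := Submodule.mem_span_pair.1 hv
  have h0 : 0 < ‖x‖ := norm_pos_iff.2 hx
  have h1 : qξ x (a • mJ x + b • mK x) = ‖x‖ ^ 4 * (a ^ 2 + b ^ 2) := by
    unfold qξ
    simp only [inner_eq, show ‖x‖ ^ 4 = (‖x‖ ^ 2) ^ 2 by ring, norm_sq_eq]
    simp
    ring
  rw [h1]
  have h2 : 0 < a ^ 2 + b ^ 2 := by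
    by_contra hcon
    have ha : a = 0 := by nlinarith [sq_nonneg a, sq_nonneg b]
    have hb : b = 0 := by nlinarith [sq_nonneg a, sq_nonneg b]
    apply hv0
    rw [ha, hb, zero_smul, zero_smul, add_zero]
  positivity

lemma qF_pos {x v : V} (hx : x ≠ 0) (hv : v ∈ SF x) (hv0 : v ≠ 0) : 0 < qF x v := by
  rw [mem_SF] at hv
  have h0 : 0 < ‖x‖ := norm_pos_iff.2 hx
  have hvn : 0 < ‖v‖ := norm_pos_iff.2 hv0
  have h1 : inner ℝ (mI x) v ^ 2 + inner ℝ (mJ x) v ^ 2 +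
      inner ℝ (mK x) v ^ 2 + inner ℝ x v ^ 2 = ‖x‖ ^ 2 * ‖v‖ ^ 2 := by
    simp only [inner_eq, norm_sq_eq]
    simp
    ring
  unfold qF
  rw [hv] at h1 ⊢
  have : 0 < ‖x‖ ^ 2 * ‖v‖ ^ 2 := by positivity
  linarith

lemma coneNhd_ξ : IsConeNhd (cone qξ) ξ := by
  refine ⟨isOpen_cone continuous_qξ invQ_qξ, ?_, ?_⟩
  · intro m v c hc h
    have h1 : 0 < qξ (lift m) v := h
    have h2 : 0 < c ^ 2 * qξ (lift m) v := by positivity
    rw [← qξ_smul] at h2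
    exact h2
  · intro m v hv hv0
    exact qξ_pos (lift_ne m) hv hv0

lemma coneNhd_F : IsConeNhd (cone qF) F := by
  refine ⟨isOpen_cone continuous_qF invQ_qF, ?_, ?_⟩
  · intro m v c hc h
    have h1 : 0 < qF (lift m) v := h
    have h2 : 0 < c ^ 2 * qF (lift m) v := by positivity
    rw [← qF_smul] at h2
    exact h2
  · intro m v hv hv0
    exact qF_pos (lift_ne m) hv hv0

end Pool.Agent.Helper70.Engel
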