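import Mathlib

/-!
Definitions: smooth distributions, Engel structures, foliations by hypersurfaces, leafwise contact
structures and `C^0`-neighbourhoods of distributions on a manifold `M`. The model with corners is
called `I` throughout; it is the standard model of dimension four in the results.
-/

open scoped Manifold ContDiff Topology
open VectorField

namespace Pool.Agent.EngelPerturbation

variable {E H : Type*} [NormedAddCommGroup E] [NormedSpace ℝ E] [TopologicalSpace H]
  (I : ModelWithCorners ℝ E H) (M : Type*) [TopologicalSpace M] [ChartedSpace H M]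

/-- Vector fields on `M` (not assumed continuous). -/
abbrev VF : Type _ := (x : M) → TangentSpace I x

/-- Families of linear subspaces of the tangent spaces of `M` (not assumed continuous). -/
abbrev Field : Type _ := (x : M) → Submodule ℝ (TangentSpace I x)

variable {I M} [IsManifold I ∞ M]

/-- `X` is a smooth (`C^∞`) vector field on `M`. -/
def IsSmoothVF (X : VF I M) : Prop :=
  ContMDiff I I.tangent ∞ (fun y => (X y : TangentBundle I M))

/-- `D` is a smooth distribution of rank `k` on `M`: near every point `x` it is spanned by `k`
smooth vector fields which are linearly independent at `x` (hence near `x`). -/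
def IsDistribution (k : ℕ) (D : Field I M) : Prop :=
  ∀ x : M, ∃ X : Fin k → VF I M, (∀ i, IsSmoothVF (X i)) ∧
    LinearIndependent ℝ (fun i => X i x) ∧
    ∀ᶠ y in 𝓝 x, D y = Submodule.span ℝ (Set.range fun i => X i y)

/-- The smooth vector field `X` is a section of `D` near the point `x`. -/
def IsSectionNear (D : Field I M) (x : M) (X : VF I M) : Prop :=
  IsSmoothVF X ∧ ∀ᶠ y in 𝓝 x, X y ∈ D y

/-- `derived D`, usually written `[D, D]`: at each point `x`, the span of the values of the smooth
sections of `D` near `x` and of their Lie brackets. -/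
noncomputable def derived (D : Field I M) : Field I M := fun x =>
  Submodule.span ℝ {v | ∃ X Y : VF I M,
    IsSectionNear D x X ∧ IsSectionNear D x Y ∧ (v = X x ∨ v = mlieBracket I X Y x)}

/-- Engel structures (on a 4-manifold): `D` has rank 2, `[D, D]` is a smooth distribution of rank
3 and `[[D, D], [D, D]]` is the whole tangent bundle. -/
def IsEngel (D : Field I M) : Prop :=
  IsDistribution 2 D ∧ IsDistribution 3 (derived D) ∧ ∀ x, derived (derived D) x = ⊤

/-- `F` is the tangent hyperplane field of a smooth codimension one foliation: near every point it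
is the kernel of the differential of a smooth real function without critical points (whose level
sets are then the leaves). -/
def IsFoliation (F : Field I M) : Prop :=
  ∀ x : M, ∃ f : M → ℝ, ∀ᶠ y in 𝓝 x, ContMDiffAt I 𝓘(ℝ, ℝ) ∞ f y ∧
    mfderiv I 𝓘(ℝ, ℝ) f y ≠ 0 ∧ ∀ v, v ∈ F y ↔ mfderiv I 𝓘(ℝ, ℝ) f y v = 0

/-- `ξ` is a leafwise contact structure of the foliation tangent to `F` (of a 4-manifold): a smooth
plane field contained in `F` with `[ξ, ξ] = F`, i.e. maximally non-integrable along the
three-dimensional leaves. -/
def IsLeafwiseContact (F ξ : Field I M) : Prop :=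
  IsDistribution 2 ξ ∧ (∀ x, ξ x ≤ F x) ∧ ∀ x, derived ξ x = F x

/-- `ξ` splits as a direct sum of two (smooth) line fields. -/
def SplitsAsLines (ξ : Field I M) : Prop :=
  ∃ L₁ L₂ : Field I M,
    IsDistribution 1 L₁ ∧ IsDistribution 1 L₂ ∧ ∀ x, L₁ x ⊓ L₂ x = ⊥ ∧ L₁ x ⊔ L₂ x = ξ x

omit [IsManifold I ∞ M] in
/-- All nonzero vectors of `D` lie in the set `O` of tangent vectors. -/
def InCone (O : Set (TangentBundle I M)) (D : Field I M) : Prop :=
  ∀ (x : M) (v : TangentSpace I x), v ∈ D x → v ≠ 0 → (⟨x, v⟩ : TangentBundle I M) ∈ O

/-- `O` is an open cone field (an open set of tangent vectors stable under nonzero scalings)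
containing all the nonzero vectors of `D`. The sets `{D' : InCone O D'}` of distributions of the
same rank, for such `O`, are the basic `C^0`-neighbourhoods of `D` (on a compact manifold). -/
def IsConeNhd (O : Set (TangentBundle I M)) (D : Field I M) : Prop :=
  IsOpen O ∧
  (∀ (x : M) (v : TangentSpace I x) (c : ℝ), c ≠ 0 →
    (⟨x, v⟩ : TangentBundle I M) ∈ O → (⟨x, c • v⟩ : TangentBundle I M) ∈ O) ∧
  InCone O D

end Pool.Agent.EngelPerturbation
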