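import Pool.Agent.Helper70.EngelDefs

/-!
The notion of perturbation of a leafwise contact structure to Engel structures.
-/

open scoped Manifold ContDiff Topology
open VectorField

namespace Pool.Agent.EngelPerturbation

variable {E H : Type*} [NormedAddCommGroup E] [NormedSpace ℝ E] [TopologicalSpace H]
  {I : ModelWithCorners ℝ E H} {M : Type*} [TopologicalSpace M] [ChartedSpace H M]
  [IsManifold I ∞ M]

/-- `(F, ξ)` can be perturbed to an Engel structure: in every `C^0`-neighbourhood of `ξ` there is
an Engel structure `D` whose even-contact structure `[D, D]` lies in a prescribed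
`C^0`-neighbourhood of `F`. -/
def CanBePerturbed (F ξ : Field I M) : Prop :=
  ∀ O O' : Set (TangentBundle I M), IsConeNhd O ξ → IsConeNhd O' F →
    ∃ D : Field I M, IsEngel D ∧ InCone O D ∧ InCone O' (derived D)

end Pool.Agent.EngelPerturbation
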