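import Pool.Agent.Helper70.EngelDefs

/-!
The statement of the counterexample.
-/

open scoped Manifold ContDiff Topology
open VectorField

namespace Pool.Agent.EngelPerturbation

variable {E H : Type*} [NormedAddCommGroup E] [NormedSpace ℝ E] [TopologicalSpace H]
  (I : ModelWithCorners ℝ E H) (M : Type*) [TopologicalSpace M] [ChartedSpace H M]
  [IsManifold I ∞ M]

/-- The 4-manifold `M` carries a codimension one foliation `F` and a leafwise contact structure
`ξ` which splits as a sum of line fields and which has a `C^0`-neighbourhood `U` containing no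
Engel structure. Moreover `F` is cooriented by a smooth vector field `T` and `ξ` is cooriented in
`F` by a smooth vector field `R`. -/
def HasContactFarFromEngel : Prop :=
  ∃ F ξ : Field I M, IsFoliation F ∧ IsLeafwiseContact F ξ ∧ SplitsAsLines ξ ∧
    (∃ T R : VF I M, IsSmoothVF T ∧ IsSmoothVF R ∧ ∀ x, T x ∉ F x ∧ R x ∈ F x ∧ R x ∉ ξ x) ∧
    ∃ U : Set (TangentBundle I M), IsConeNhd U ξ ∧ ∀ D : Field I M, IsEngel D → ¬ InCone U D

end Pool.Agent.EngelPerturbation
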