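import Pool.Agent.Helper70.EngelQuot

/-!
The projection `P : V → M` is a local diffeomorphism away from the origin; invariant vector fields
descend.
-/

open scoped Manifold ContDiff Topology
open Set VectorField Bundle

namespace Pool.Agent.Helper70.Engel

/-- The representative of a point used by the preferred chart. -/
noncomputable def lift (m : M) : V := chartAt V m m

lemma lift_ne (m : M) : lift m ≠ 0 :=
  (atlas_symm (chart_mem_atlas V m) ((chartAt V m).map_source (mem_chart_source V m))).1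

lemma P_lift (m : M) : P (lift m) = m := by
  have := (atlas_symm (chart_mem_atlas V m) ((chartAt V m).map_source (mem_chart_source V m))).2
  rw [(chartAt V m).left_inv (mem_chart_source V m)] at this
  exact this.symm

lemma P_written {x : V} (hx : x ≠ 0) : ∃ c : Γ, cL ((c : ℂˣ) : ℂ) x = lift (P x) ∧
    (fun z => chartAt V (P x) (P z)) =ᶠ[𝓝 x] fun z => cL ((c : ℂˣ) : ℂ) z := by
  obtain ⟨c, hc, hev⟩ := chart_comp_P (chart_mem_atlas V (P x)) hx (mem_chart_source V (P x))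
  exact ⟨c, hc, hev.mono fun z hz => hz.2⟩

lemma P_contMDiffAt {x : V} (hx : x ≠ 0) : ContMDiffAt (𝓡 4) (𝓡 4) ∞ P x := by
  obtain ⟨c, -, hev⟩ := P_written hx
  rw [contMDiffAt_iff]
  refine ⟨continuousAt_P hx, ?_⟩
  have : ContDiffAt ℝ ∞ (fun z => chartAt V (P x) (P z)) x :=
    (cL ((c : ℂˣ) : ℂ)).contDiff.contDiffAt.congr_of_eventuallyEq hev
  simpa [Function.comp_def, contDiffWithinAt_univ] using this

lemma P_hasMFDerivAt {x : V} (hx : x ≠ 0) : ∃ c : Γ, cL ((c : ℂˣ) : ℂ) x = lift (P x) ∧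
    HasMFDerivAt (𝓡 4) (𝓡 4) P x (cL ((c : ℂˣ) : ℂ)) := by
  obtain ⟨c, hc, hev⟩ := P_written hx
  refine ⟨c, hc, continuousAt_P hx, ?_⟩
  have : HasFDerivAt (fun z => chartAt V (P x) (P z)) (cL ((c : ℂˣ) : ℂ)) x :=
    (cL ((c : ℂˣ) : ℂ)).hasFDerivAt.congr_of_eventuallyEq hev
  have h2 : HasFDerivWithinAt (fun z => chartAt V (P x) (P z)) (cL ((c : ℂˣ) : ℂ)) univ x :=
    this.hasFDerivWithinAt
  simpa [writtenInExtChartAt, Function.comp_def] using! h2

/-- The inverse of a scalar multiplication. -/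
noncomputable def cE (c : Γ) : V ≃L[ℝ] V :=
  ContinuousLinearEquiv.equivOfInverse (cL ((c : ℂˣ) : ℂ)) (cL (((c⁻¹ : Γ) : ℂˣ) : ℂ))
    (fun x => by
      rw [← cL_mul, ← Units.val_mul, ← Subgroup.coe_mul, inv_mul_cancel]; exact cL_one x)
    (fun x => by
      rw [← cL_mul, ← Units.val_mul, ← Subgroup.coe_mul, mul_inv_cancel]; exact cL_one x)

lemma cE_coe (c : Γ) : ((cE c : V ≃L[ℝ] V) : V →L[ℝ] V) = cL ((c : ℂˣ) : ℂ) := rfl

lemma cE_apply (c : Γ) (x : V) : cE c x = cL ((c : ℂˣ) : ℂ) x := rfl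

lemma P_mfderiv {x : V} (hx : x ≠ 0) : ∃ c : Γ, cL ((c : ℂˣ) : ℂ) x = lift (P x) ∧
    mfderiv (𝓡 4) (𝓡 4) P x = cL ((c : ℂˣ) : ℂ) := by
  obtain ⟨c, hc, h⟩ := P_hasMFDerivAt hx
  exact ⟨c, hc, h.mfderiv⟩

lemma P_invertible {x : V} (hx : x ≠ 0) : (mfderiv (𝓡 4) (𝓡 4) P x).IsInvertible := by
  obtain ⟨c, -, h⟩ := P_mfderiv hx
  rw [h]
  exact ⟨cE c, rfl⟩

/-- The derivative of the projection, as a linear map on the model space. -/
noncomputable def dP (x : V) : V →L[ℝ] TangentSpace (𝓡 4) (P x) := mfderiv (𝓡 4) (𝓡 4) P x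

lemma dP_eq {x : V} (hx : x ≠ 0) : ∃ c : Γ, cL ((c : ℂˣ) : ℂ) x = lift (P x) ∧
    ∀ v : V, dP x v = (cL ((c : ℂˣ) : ℂ) v : V) := by
  obtain ⟨c, hc, h⟩ := P_mfderiv hx
  refine ⟨c, hc, fun v => ?_⟩
  rw [dP, h]
  rfl

lemma dP_surj {x : V} (hx : x ≠ 0) : Function.Surjective (dP x) := (P_invertible hx).surjective

lemma dP_inj {x : V} (hx : x ≠ 0) : Function.Injective (dP x) := (P_invertible hx).injective

/-- The tangent coordinate change on `M` is multiplication by an element of the group. -/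
lemma triv_apply {m₀ m : M} (hm : m ∈ (chartAt V m₀).source) :
    ∃ c : Γ, cL ((c : ℂˣ) : ℂ) (lift m) = chartAt V m₀ m ∧
      ∀ v : TangentSpace (𝓡 4) m, (trivializationAt V (TangentSpace (𝓡 4)) m₀ ⟨m, v⟩).2 =
        cL ((c : ℂˣ) : ℂ) v := by
  have hl := lift_ne m
  have hPl := P_lift m
  obtain ⟨c, hc, hev⟩ := chart_comp_P (chart_mem_atlas V m₀) hl (by rw [hPl]; exact hm)
  refine ⟨c, by rw [hc, hPl], fun v => ?_⟩
  rw [TangentBundle.trivializationAt_apply]
  have h1 : ((chartAt V m₀).extend (𝓡 4) ∘ ((chartAt V m).extend (𝓡 4)).symm) =ᶠ[𝓝 (lift m)]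
      fun z => cL ((c : ℂˣ) : ℂ) z := by
    have h2 : ∀ᶠ z in 𝓝 (lift m), z ∈ (chartAt V m).target :=
      (chartAt V m).open_target.mem_nhds ((chartAt V m).map_source (mem_chart_source V m))
    filter_upwards [hev, h2] with z hz hz2
    have h3 := (atlas_symm (chart_mem_atlas V m) hz2).2
    simp only [Function.comp_apply, OpenPartialHomeomorph.extend_coe,
      OpenPartialHomeomorph.extend_coe_symm, modelWithCornersSelf_coe,
      modelWithCornersSelf_coe_symm, id_eq, h3, hz.2]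
  have h4 : HasFDerivWithinAt ((chartAt V m₀).extend (𝓡 4) ∘ ((chartAt V m).extend (𝓡 4)).symm)
      (cL ((c : ℂˣ) : ℂ)) (range (𝓡 4)) (lift m) := by
    simp only [modelWithCornersSelf_coe, range_id, hasFDerivWithinAt_univ]
    exact (cL ((c : ℂˣ) : ℂ)).hasFDerivAt.congr_of_eventuallyEq h1
  have h5 : (chartAt V m).extend (𝓡 4) m = lift m := by simp [lift]
  simp only [h5]
  rw [h4.fderivWithin (by simp [modelWithCornersSelf_coe, range_id, uniqueDiffWithinAt_univ])]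

/-- Invariant vector fields on the model. -/
def Inv (A : V → V) : Prop :=
  (∀ x, x ≠ 0 → ContDiffAt ℝ ∞ A x) ∧ ∀ (c : Γ) (x : V), x ≠ 0 →
    A (cL ((c : ℂˣ) : ℂ) x) = cL ((c : ℂˣ) : ℂ) (A x)

/-- The vector field on `M` induced by an invariant vector field. -/
noncomputable def push (A : V → V) (m : M) : TangentSpace (𝓡 4) m := A (lift m)

lemma dP_apply_inv {A : V → V} (hA : Inv A) {x : V} (hx : x ≠ 0) :
    dP x (A x) = push A (P x) := by
  obtain ⟨c, hc, h⟩ := dP_eq hx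
  rw [h, push, ← hc, hA.2 c x hx]

lemma push_contMDiff {A : V → V} (hA : Inv A) :
    ContMDiff (𝓡 4) (𝓡 4).tangent ∞ (fun m => (push A m : TangentBundle (𝓡 4) M)) := by
  intro m₀
  refine (Bundle.contMDiffAt_section (IB := 𝓡 4) (F := V) m₀).2 ?_
  have h1 : (fun m => (trivializationAt V (TangentSpace (𝓡 4)) m₀ ⟨m, push A m⟩).2) =ᶠ[𝓝 m₀]
      fun m => A (chartAt V m₀ m) := by
    filter_upwards [(chartAt V m₀).open_source.mem_nhds (mem_chart_source V m₀)] with m hm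
    obtain ⟨c, hc, h⟩ := triv_apply hm
    rw [h, push, ← hc, hA.2 c _ (lift_ne m)]
  refine ContMDiffAt.congr_of_eventuallyEq ?_ h1
  have h2 : ContMDiffAt (𝓡 4) (𝓡 4) ∞ (chartAt V m₀) m₀ :=
    contMDiffAt_extChartAt (I := 𝓡 4) (x := m₀) |>.congr_of_eventuallyEq
      (Filter.Eventually.of_forall fun m => by simp)
  exact ContMDiffAt.comp (I' := 𝓡 4) m₀ (g := A) (f := chartAt V m₀)
    ((hA.1 _ (lift_ne m₀)).contMDiffAt) h2

lemma mpullback_push {A : V → V} (hA : Inv A) {x : V} (hx : x ≠ 0) :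
    mpullback (𝓡 4) (𝓡 4) P (push A) x = A x := by
  rw [mpullback_apply, ← dP_apply_inv hA hx]
  exact (P_invertible hx).inverse_apply_self (A x)

instance instManifoldMin {N : Type*} [TopologicalSpace N] [ChartedSpace V N]
    [IsManifold (𝓡 4) ∞ N] : IsManifold (𝓡 4) (minSmoothness ℝ 2) N := by
  rw [minSmoothness_of_isRCLikeNormedField]
  infer_instance

lemma mlieBracket_eq_lieBracket (A B : V → V) (x : V) :
    mlieBracket (𝓡 4) (M := V) A B x = lieBracket ℝ A B x := by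
  rw [← mlieBracketWithin_univ, mlieBracketWithin_eq_lieBracketWithin, lieBracketWithin_univ]

/-- Brackets of induced vector fields. -/
lemma mlieBracket_push {A B : V → V} (hA : Inv A) (hB : Inv B) {x : V} (hx : x ≠ 0) :
    mlieBracket (𝓡 4) (push A) (push B) (P x) = dP x (lieBracket ℝ A B x) := by
  have h1 := mpullback_mlieBracket (I := 𝓡 4) (I' := 𝓡 4) (f := P) (x₀ := x) (n := ∞)
    ((push_contMDiff hA).contMDiffAt.mdifferentiableAt (by simp))
    ((push_contMDiff hB).contMDiffAt.mdifferentiableAt (by simp))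
    (P_contMDiffAt hx) (by rw [minSmoothness_of_isRCLikeNormedField]; exact ENat.LEInfty.out)
  have hev : ∀ᶠ z in 𝓝 x, z ≠ 0 := isOpen_compl_singleton.mem_nhds hx
  have h2 : mpullback (𝓡 4) (𝓡 4) P (push A) =ᶠ[𝓝 x] A := hev.mono fun z hz => mpullback_push hA hz
  have h3 : mpullback (𝓡 4) (𝓡 4) P (push B) =ᶠ[𝓝 x] B := hev.mono fun z hz => mpullback_push hB hz
  rw [h2.mlieBracket_vectorField_eq h3, mpullback_apply] at h1
  have h5 := congrArg (mfderiv (𝓡 4) (𝓡 4) P x) h1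
  rw [(P_invertible hx).self_apply_inverse] at h5
  rw [h5]
  exact congrArg (mfderiv (𝓡 4) (𝓡 4) P x) (mlieBracket_eq_lieBracket A B x)

end Pool.Agent.Helper70.Engel
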