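import Pool.Agent.Helper70.EngelDeriv
import Pool.Agent.Helper70.EngelDefs

/-!
The foliation, the leafwise contact structure and its splitting on `M`.
-/

open scoped Manifold ContDiff Topology
open Set VectorField Bundle Pool.Agent.EngelPerturbation

namespace Pool.Agent.Helper70.Engel

lemma Γ_cases (c : Γ) : ((c : ℂˣ) : ℂ).im = 0 ∨ ((c : ℂˣ) : ℂ).re = 0 := by
  obtain ⟨k, hk⟩ := c.2
  set z : ℂ := ((c : ℂˣ) : ℂ)
  have h1 : (z ^ 2 - (4 : ℂ) ^ k) * (z ^ 2 + (4 : ℂ) ^ k) = 0 := by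
    have h2 : ((4 : ℂ) ^ k) ^ 2 = (16 : ℂ) ^ k := by
      rw [← zpow_natCast, ← zpow_mul, mul_comm, zpow_mul]; norm_num
    have h3 : (z ^ 2 - (4 : ℂ) ^ k) * (z ^ 2 + (4 : ℂ) ^ k) = z ^ 4 - ((4 : ℂ) ^ k) ^ 2 := by ring
    rw [h3, h2, hk, sub_self]
  have h4 : ((4 : ℂ) ^ k).im = 0 := by
    have : (4 : ℂ) ^ k = (((4 : ℝ) ^ k : ℝ) : ℂ) := by push_cast; rfl
    rw [this, Complex.ofReal_im]
  have h5 : (z ^ 2).im = 0 := by
    rcases mul_eq_zero.1 h1 with h | h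
    · rw [sub_eq_zero.1 h, h4]
    · rw [eq_neg_of_add_eq_zero_left h, Complex.neg_im, h4, neg_zero]
  have h6 : (z ^ 2).im = 2 * z.re * z.im := by
    rw [pow_two, Complex.mul_im]; ring
  rw [h6] at h5
  rcases mul_eq_zero.1 h5 with h | h
  · right
    simpa using h
  · left; exact h

lemma mI_cL (c : ℂ) (x : V) : mI (cL c x) = cL c (mI x) := by
  ext i; fin_cases i <;> simp [cL_apply] <;> ring

lemma mJ_cL (c : ℂ) (x : V) : mJ (cL c x) = cL (starRingEnd ℂ c) (mJ x) := by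
  ext i; fin_cases i <;> simp [cL_apply] <;> ring

lemma mK_cL (c : ℂ) (x : V) : mK (cL c x) = cL (starRingEnd ℂ c) (mK x) := by
  ext i; fin_cases i <;> simp [cL_apply] <;> ring

/-- The invariant families of subspaces of the model. -/
def InvS (S : V → Submodule ℝ V) : Prop :=
  ∀ (c : Γ) (x : V), x ≠ 0 → ∀ v ∈ S x, cL ((c : ℂˣ) : ℂ) v ∈ S (cL ((c : ℂˣ) : ℂ) x)

/-- The family of subspaces induced on `M`. -/
noncomputable def pushS (S : V → Submodule ℝ V) (m : M) : Submodule ℝ (TangentSpace (𝓡 4) m) :=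
  S (lift m)

lemma InvS.mem_iff {S : V → Submodule ℝ V} (hS : InvS S) (c : Γ) {x : V} (hx : x ≠ 0) (v : V) :
    cL ((c : ℂˣ) : ℂ) v ∈ S (cL ((c : ℂˣ) : ℂ) x) ↔ v ∈ S x := by
  refine ⟨fun h => ?_, hS c x hx v⟩
  have h1 := hS c⁻¹ _ (cL_ne_zero (Units.ne_zero (c : ℂˣ)) hx) _ h
  have h2 : ∀ y : V, cL (((c⁻¹ : Γ) : ℂˣ) : ℂ) (cL ((c : ℂˣ) : ℂ) y) = y := fun y =>
    (cE c).symm_apply_apply y
  rwa [h2, h2] at h1

lemma InvS.map_eq {S : V → Submodule ℝ V} (hS : InvS S) (c : Γ) {x : V} (hx : x ≠ 0) :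
    S (cL ((c : ℂˣ) : ℂ) x) = (S x).map (cL ((c : ℂˣ) : ℂ) : V →ₗ[ℝ] V) := by
  ext v
  obtain ⟨w, rfl⟩ : ∃ w, cL ((c : ℂˣ) : ℂ) w = v := ⟨(cE c).symm v, (cE c).apply_symm_apply v⟩
  rw [hS.mem_iff c hx]
  constructor
  · intro h
    exact ⟨w, h, rfl⟩
  · rintro ⟨w', h, h'⟩
    have : w' = w := (cE c).injective h'
    rwa [← this]

lemma mem_pushS {S : V → Submodule ℝ V} (hS : InvS S) {x : V} (hx : x ≠ 0) (v : V) :
    dP x v ∈ pushS S (P x) ↔ v ∈ S x := by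
  obtain ⟨c, hc, h⟩ := dP_eq hx
  rw [h, pushS, ← hc]
  exact hS.mem_iff c hx v

lemma chart_lift {m₀ m : M} (hm : m ∈ (chartAt V m₀).source) :
    chartAt V m₀ m ≠ 0 ∧ P (chartAt V m₀ m) = m ∧
      ∃ c : Γ, cL ((c : ℂˣ) : ℂ) (chartAt V m₀ m) = lift m := by
  have h1 := atlas_symm (chart_mem_atlas V m₀) ((chartAt V m₀).map_source hm)
  rw [(chartAt V m₀).left_inv hm] at h1
  refine ⟨h1.1, h1.2.symm, ?_⟩
  exact P_eq h1.1 (lift_ne m) (by rw [P_lift, ← h1.2])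

lemma isDistribution_pushS {k : ℕ} {S : V → Submodule ℝ V} (hS : InvS S)
    (h : ∀ x : V, x ≠ 0 → ∃ A : Fin k → V → V, (∀ i, Inv (A i)) ∧
      LinearIndependent ℝ (fun i => A i x) ∧
      ∀ᶠ z in 𝓝 x, S z = Submodule.span ℝ (Set.range fun i => A i z)) :
    IsDistribution k (pushS S) := by
  intro m₀
  obtain ⟨A, hA, hlin, hev⟩ := h (lift m₀) (lift_ne m₀)
  refine ⟨fun i => push (A i), fun i => push_contMDiff (hA i), hlin, ?_⟩
  have h1 : ∀ᶠ y in 𝓝 m₀, S (chartAt V m₀ y) =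
      Submodule.span ℝ (Set.range fun i => A i (chartAt V m₀ y)) :=
    ((chartAt V m₀).continuousAt (mem_chart_source V m₀)).eventually hev
  filter_upwards [h1, (chartAt V m₀).open_source.mem_nhds (mem_chart_source V m₀)] with y hy hys
  obtain ⟨hne, -, c, hc⟩ := chart_lift hys
  change S (lift y) = Submodule.span ℝ (Set.range fun i => A i (lift y))
  rw [← hc, hS.map_eq c hne, hy, Submodule.map_span, ← Set.range_comp]
  congr 2
  funext i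
  exact ((hA i).2 c _ hne).symm

/-- The four weight functions, all of weight `c ^ 2 / ‖c‖ ^ 2` under the group. -/
noncomputable def wt (i : Fin 4) (x : V) : ℝ :=
  (match i with
    | 0 => x 0 ^ 2 - x 1 ^ 2
    | 1 => 2 * x 0 * x 1
    | 2 => x 2 ^ 2 - x 3 ^ 2
    | 3 => 2 * x 2 * x 3) / ‖x‖ ^ 2

lemma norm_sq_eq (x : V) : ‖x‖ ^ 2 = x 0 ^ 2 + x 1 ^ 2 + x 2 ^ 2 + x 3 ^ 2 := by
  rw [EuclideanSpace.norm_sq_eq]
  simp [Fin.sum_univ_four]

lemma wt_contDiffAt (i : Fin 4) {x : V} (hx : x ≠ 0) : ContDiffAt ℝ ∞ (wt i) x := by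
  have hc : ∀ j : Fin 4, ContDiff ℝ ∞ (fun z : V => z j) := fun j =>
    (EuclideanSpace.proj j : V →L[ℝ] ℝ).contDiff
  have h1 : ContDiffAt ℝ ∞ (fun z : V => ‖z‖ ^ 2) x := (contDiff_norm_sq ℝ).contDiffAt
  have h2 : ‖x‖ ^ 2 ≠ 0 := by positivity
  unfold wt
  fin_cases i
  · exact (((hc 0).pow 2).sub ((hc 1).pow 2)).contDiffAt.div h1 h2
  · exact ((contDiff_const.mul (hc 0)).mul (hc 1)).contDiffAt.div h1 h2
  · exact (((hc 2).pow 2).sub ((hc 3).pow 2)).contDiffAt.div h1 h2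
  · exact ((contDiff_const.mul (hc 2)).mul (hc 3)).contDiffAt.div h1 h2

lemma exists_wt_ne {x : V} (hx : x ≠ 0) : ∃ i, wt i x ≠ 0 := by
  by_contra hcon
  push Not at hcon
  have h2 : ‖x‖ ^ 2 ≠ 0 := by positivity
  have h0 := hcon 0
  have h1 := hcon 1
  have h3 := hcon 2
  have h4 := hcon 3
  simp only [wt, div_eq_zero_iff, h2, or_false] at h0 h1 h3 h4
  have e1 : (x 0 ^ 2 + x 1 ^ 2) ^ 2 = 0 := by
    have : (x 0 ^ 2 + x 1 ^ 2) ^ 2 = (x 0 ^ 2 - x 1 ^ 2) ^ 2 + (2 * x 0 * x 1) ^ 2 := by ring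
    rw [this, h0, h1]; ring
  have e2 : (x 2 ^ 2 + x 3 ^ 2) ^ 2 = 0 := by
    have : (x 2 ^ 2 + x 3 ^ 2) ^ 2 = (x 2 ^ 2 - x 3 ^ 2) ^ 2 + (2 * x 2 * x 3) ^ 2 := by ring
    rw [this, h3, h4]; ring
  have e3 : x 0 ^ 2 + x 1 ^ 2 = 0 := by simpa using e1
  have e4 : x 2 ^ 2 + x 3 ^ 2 = 0 := by simpa using e2
  apply h2
  rw [norm_sq_eq]
  linarith

/-- The sign of a group element acting on `J`, `K` and on the weights. -/
lemma wt_smul_J (i : Fin 4) (c : Γ) {x : V} (hx : x ≠ 0) :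
    wt i (cL ((c : ℂˣ) : ℂ) x) • mJ (cL ((c : ℂˣ) : ℂ) x) = cL ((c : ℂˣ) : ℂ) (wt i x • mJ x) ∧
    wt i (cL ((c : ℂˣ) : ℂ) x) • mK (cL ((c : ℂˣ) : ℂ) x) = cL ((c : ℂˣ) : ℂ) (wt i x • mK x) := by
  have hc0 : ((c : ℂˣ) : ℂ) ≠ 0 := Units.ne_zero _
  generalize hz : ((c : ℂˣ) : ℂ) = z at hc0
  have hcase := Γ_cases c
  rw [hz] at hcase
  have hn : ‖x‖ ^ 2 ≠ 0 := by positivity
  rcases hcase with h | h
  · -- real scalar
    have hre : z.re ≠ 0 := by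
      intro h'; exact hc0 (Complex.ext h' h)
    have hw : wt i (cL z x) = wt i x := by
      have h3 : ‖cL z x‖ ^ 2 = z.re ^ 2 * ‖x‖ ^ 2 := by
        rw [norm_sq_eq, norm_sq_eq]; simp [cL_apply, h]; ring
      unfold wt
      rw [h3]
      fin_cases i <;> simp [cL_apply, h] <;> field_simp <;> ring
    rw [hw, mJ_cL, mK_cL, map_smul, map_smul]
    have hcc : (starRingEnd ℂ) z = z := Complex.conj_eq_iff_im.2 h
    rw [hcc]
    exact ⟨rfl, rfl⟩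
  · have him : z.im ≠ 0 := by
      intro h'; exact hc0 (Complex.ext h h')
    have hw : wt i (cL z x) = - wt i x := by
      have h3 : ‖cL z x‖ ^ 2 = z.im ^ 2 * ‖x‖ ^ 2 := by
        rw [norm_sq_eq, norm_sq_eq]; simp [cL_apply, h]; ring
      unfold wt
      rw [h3]
      fin_cases i <;> simp [cL_apply, h] <;> field_simp <;> ring
    have hcc : ∀ y : V, cL ((starRingEnd ℂ) z) y = - cL z y := by
      intro y
      ext i; fin_cases i <;> simp [cL_apply, h]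
    rw [hw, mJ_cL, mK_cL, map_smul, map_smul, hcc, hcc, smul_neg, smul_neg, neg_smul, neg_smul,
      neg_neg, neg_neg]
    exact ⟨rfl, rfl⟩

lemma inv_wt_J (i : Fin 4) : Inv (fun x => wt i x • mJ x) :=
  ⟨fun _ hx => (wt_contDiffAt i hx).smul mJ.contDiff.contDiffAt,
    fun c _ hx => (wt_smul_J i c hx).1⟩

lemma inv_wt_K (i : Fin 4) : Inv (fun x => wt i x • mK x) :=
  ⟨fun _ hx => (wt_contDiffAt i hx).smul mK.contDiff.contDiffAt,
    fun c _ hx => (wt_smul_J i c hx).2⟩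

lemma inv_I : Inv (fun x => mI x) :=
  ⟨fun _ _ => mI.contDiff.contDiffAt, fun _ _ _ => mI_cL _ _⟩

lemma inv_T : Inv (fun x => x) := ⟨fun _ _ => contDiffAt_id, fun _ _ _ => rfl⟩

end Pool.Agent.Helper70.Engel
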