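import Pool.Agent.Helper70.EngelNeg2
import Pool.Agent.Helper70.EngelDefs3

/-!
The assembled counterexample.
-/

open scoped Manifold ContDiff Topology
open Pool.Agent.EngelPerturbation

namespace Pool.Agent.Helper70.Engel

theorem counterexample : HasContactFarFromEngel (𝓡 4) M := by
  refine ⟨F, ξ, isFoliation_F, leafwiseContact, splits_ξ,
    ⟨push fun x => x, push fun x => mI x, push_contMDiff inv_T, push_contMDiff inv_I, ?_⟩,
    cone qξ, coneNhd_ξ, fun D hE => no_engel hE⟩
  intro m
  have hm := lift_ne m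
  refine ⟨?_, ?_, ?_⟩
  · intro h
    have h1 : inner ℝ (lift m) (lift m) = (0 : ℝ) := mem_SF.1 h
    exact hm (inner_self_eq_zero.1 h1)
  · have h1 : inner ℝ (lift m) (mI (lift m)) = (0 : ℝ) := by
      rw [inner_eq]; simp; ring
    exact mem_SF.2 h1
  · intro h
    have hI : mI (lift m) ≠ 0 := by
      intro h0
      have h1 : ‖mI (lift m)‖ ^ 2 = ‖lift m‖ ^ 2 := by rw [norm_sq_eq, norm_sq_eq]; simp; ring
      rw [h0, norm_zero] at h1
      exact hm (by simpa using h1.symm)
    have h1 : 0 < qξ (lift m) (mI (lift m)) := qξ_pos hm h hI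
    have h2 : inner ℝ (mJ (lift m)) (mI (lift m)) = (0 : ℝ) := by rw [inner_eq]; simp; ring
    have h3 : inner ℝ (mK (lift m)) (mI (lift m)) = (0 : ℝ) := by rw [inner_eq]; simp; ring
    unfold qξ at h1
    rw [h2, h3] at h1
    nlinarith [sq_nonneg (inner ℝ (mI (lift m)) (mI (lift m))),
      sq_nonneg (inner ℝ (lift m) (mI (lift m)))]

end Pool.Agent.Helper70.Engel
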