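import Mathlib

/-!
The real four dimensional model `ℂ² = ℍ`, its complex scalar multiplication and the discrete group
generated by the scalars `I` and `2`.
-/

open scoped Manifold ContDiff

namespace Pool.Agent.Helper70.Engel

/-- The model space. -/
abbrev V := EuclideanSpace ℝ (Fin 4)

/-- Left multiplication by the quaternion `i`. -/
noncomputable def mI : V →L[ℝ] V :=
  LinearMap.toContinuousLinearMap
    { toFun := fun x => !₂[-x 1, x 0, -x 3, x 2]
      map_add' := by intro x y; ext i; fin_cases i <;> simp <;> ring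
      map_smul' := by intro c x; ext i; fin_cases i <;> simp }

/-- Left multiplication by the quaternion `j`. -/
noncomputable def mJ : V →L[ℝ] V :=
  LinearMap.toContinuousLinearMap
    { toFun := fun x => !₂[-x 2, x 3, x 0, -x 1]
      map_add' := by intro x y; ext i; fin_cases i <;> simp <;> ring
      map_smul' := by intro c x; ext i; fin_cases i <;> simp }

/-- Left multiplication by the quaternion `k`. -/
noncomputable def mK : V →L[ℝ] V :=
  LinearMap.toContinuousLinearMap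
    { toFun := fun x => !₂[-x 3, -x 2, x 1, x 0]
      map_add' := by intro x y; ext i; fin_cases i <;> simp <;> ring
      map_smul' := by intro c x; ext i; fin_cases i <;> simp }

@[simp] lemma mI_apply (x : V) : mI x = !₂[-x 1, x 0, -x 3, x 2] := rfl
@[simp] lemma mJ_apply (x : V) : mJ x = !₂[-x 2, x 3, x 0, -x 1] := rfl
@[simp] lemma mK_apply (x : V) : mK x = !₂[-x 3, -x 2, x 1, x 0] := rfl

/-- Multiplication by a complex scalar. -/
noncomputable def cL (c : ℂ) : V →L[ℝ] V := c.re • ContinuousLinearMap.id ℝ V + c.im • mI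

lemma cL_apply (c : ℂ) (x : V) : cL c x =
    !₂[c.re * x 0 - c.im * x 1, c.re * x 1 + c.im * x 0,
      c.re * x 2 - c.im * x 3, c.re * x 3 + c.im * x 2] := by
  ext i; fin_cases i <;> simp [cL] <;> ring

lemma cL_one (x : V) : cL 1 x = x := by
  ext i; fin_cases i <;> simp [cL_apply]

lemma cL_mul (c d : ℂ) (x : V) : cL (c * d) x = cL c (cL d x) := by
  ext i; fin_cases i <;> simp [cL_apply] <;> ring

lemma cL_norm (c : ℂ) (x : V) : ‖cL c x‖ = ‖c‖ * ‖x‖ := by
  have h : ‖cL c x‖ ^ 2 = (‖c‖ * ‖x‖) ^ 2 := by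
    rw [mul_pow, ← Complex.normSq_eq_norm_sq, Complex.normSq_apply, EuclideanSpace.norm_sq_eq,
      EuclideanSpace.norm_sq_eq]
    simp [Fin.sum_univ_four, cL_apply]
    ring
  exact (sq_eq_sq₀ (norm_nonneg _) (by positivity)).1 h

lemma cL_ne_zero {c : ℂ} (hc : c ≠ 0) {x : V} (hx : x ≠ 0) : cL c x ≠ 0 := by
  rw [← norm_ne_zero_iff, cL_norm]
  exact mul_ne_zero (norm_ne_zero_iff.2 hc) (norm_ne_zero_iff.2 hx)

lemma cL_sub (c d : ℂ) (x : V) : cL c x - cL d x = cL (c - d) x := by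
  ext i; fin_cases i <;> simp [cL_apply] <;> ring

/-- The discrete group generated by the complex scalars `I` and `2`. -/
def Γ : Subgroup ℂˣ where
  carrier := {c | ∃ k : ℤ, (c : ℂ) ^ 4 = (16 : ℂ) ^ k}
  one_mem' := ⟨0, by simp⟩
  mul_mem' := by
    rintro a b ⟨k, hk⟩ ⟨l, hl⟩
    refine ⟨k + l, ?_⟩
    rw [Units.val_mul, mul_pow, hk, hl, zpow_add₀ (by norm_num)]
  inv_mem' := by
    rintro a ⟨k, hk⟩
    refine ⟨-k, ?_⟩
    rw [Units.val_inv_eq_inv_val, inv_pow, hk, zpow_neg]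

/-- The punctured model space. -/
def U : TopologicalSpace.Opens V := ⟨{0}ᶜ, isOpen_compl_singleton⟩

lemma mem_U {x : V} : x ∈ U ↔ x ≠ 0 := Iff.rfl

noncomputable instance : MulAction Γ U where
  smul c x := ⟨cL ((c : ℂˣ) : ℂ) x, cL_ne_zero (Units.ne_zero _) x.2⟩
  one_smul _ := Subtype.ext (cL_one _)
  mul_smul _ _ _ := Subtype.ext (cL_mul _ _ _)

lemma smul_val (c : Γ) (x : U) : ((c • x : U) : V) = cL ((c : ℂˣ) : ℂ) x := rfl

instance : ContinuousConstSMul Γ U where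
  continuous_const_smul c := by
    refine Continuous.subtype_mk ?_ _
    exact (cL ((c : ℂˣ) : ℂ)).continuous.comp continuous_subtype_val

instance : IsCancelSMul Γ U where
  left_cancel' a b c h := by
    have := congrArg (fun z => a⁻¹ • z) h
    simpa using this
  right_cancel' a b x h := by
    have h1 : cL ((a : ℂˣ) : ℂ) x = cL ((b : ℂˣ) : ℂ) x := congrArg Subtype.val h
    have h2 : cL (((a : ℂˣ) : ℂ) - ((b : ℂˣ) : ℂ)) x = 0 := by
      rw [← cL_sub, h1, sub_self]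
    by_contra hne
    refine cL_ne_zero (sub_ne_zero.2 fun h3 => hne ?_) x.2 h2
    exact Subtype.ext (Units.ext h3)

lemma norm_mem_Γ (c : Γ) : ∃ k : ℤ, (((c : ℂˣ) : ℂ)) ^ 4 = (16 : ℂ) ^ k ∧ ‖((c : ℂˣ) : ℂ)‖ = 2 ^ k := by
  obtain ⟨k, hk⟩ := c.2
  refine ⟨k, hk, ?_⟩
  have h : ‖((c : ℂˣ) : ℂ)‖ ^ 4 = (2 ^ k : ℝ) ^ 4 := by
    rw [← norm_pow, hk, norm_zpow]
    norm_num
    rw [← zpow_natCast, ← zpow_mul, mul_comm, zpow_mul]
    norm_num
  exact (pow_left_inj₀ (norm_nonneg _) (by positivity) (by norm_num)).1 h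

instance : ProperlyDiscontinuousSMul Γ U where
  finite_disjoint_inter_image {K L} hK hL := by
    classical
    -- bounds on the norms
    rcases K.eq_empty_or_nonempty with rfl | hKne
    · simp
    rcases L.eq_empty_or_nonempty with rfl | hLne
    · simp
    have hcont : Continuous fun x : U => ‖(x : V)‖ := by fun_prop
    obtain ⟨a, haK, ha⟩ := hK.exists_isMinOn hKne hcont.continuousOn
    obtain ⟨A, hAK, hA⟩ := hK.exists_isMaxOn hKne hcont.continuousOn
    obtain ⟨b, hbL, hb⟩ := hL.exists_isMinOn hLne hcont.continuousOn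
    obtain ⟨B, hBL, hB⟩ := hL.exists_isMaxOn hLne hcont.continuousOn
    have hapos : 0 < ‖(a : V)‖ := norm_pos_iff.2 a.2
    have hApos : 0 < ‖(A : V)‖ := norm_pos_iff.2 A.2
    have hbpos : 0 < ‖(b : V)‖ := norm_pos_iff.2 b.2
    -- integers with bounded powers of two
    have hfinint : {k : ℤ | ‖(b : V)‖ / ‖(A : V)‖ ≤ (2 : ℝ) ^ k ∧ (2 : ℝ) ^ k ≤ ‖(B : V)‖ / ‖(a : V)‖}.Finite := by
      obtain ⟨n, hn⟩ := pow_unbounded_of_one_lt (‖(B : V)‖ / ‖(a : V)‖) (one_lt_two (α := ℝ))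
      obtain ⟨m, hm⟩ := pow_unbounded_of_one_lt (‖(A : V)‖ / ‖(b : V)‖) (one_lt_two (α := ℝ))
      refine (Set.finite_Icc (-(m : ℤ)) n).subset ?_
      rintro k ⟨h1, h2⟩
      constructor
      · have h3 : (2 : ℝ) ^ (-(m : ℤ)) < 2 ^ k := by
          refine lt_of_lt_of_le ?_ h1
          rw [zpow_neg, zpow_natCast, inv_lt_comm₀ (by positivity) (by positivity), inv_div]
          exact hm
        exact ((zpow_lt_zpow_iff_right₀ (one_lt_two (α := ℝ))).1 h3).le
      · have h3 : (2 : ℝ) ^ k < 2 ^ (n : ℤ) := by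
          refine lt_of_le_of_lt h2 ?_
          rw [zpow_natCast]
          exact hn
        exact ((zpow_lt_zpow_iff_right₀ (one_lt_two (α := ℝ))).1 h3).le
    have hfin : (⋃ k ∈ {k : ℤ | ‖(b : V)‖ / ‖(A : V)‖ ≤ (2 : ℝ) ^ k ∧ (2 : ℝ) ^ k ≤ ‖(B : V)‖ / ‖(a : V)‖},
        {z : ℂ | z ^ 4 = (16 : ℂ) ^ k}).Finite := by
      refine hfinint.biUnion fun k _ => ?_
      refine ((Polynomial.nthRoots 4 ((16 : ℂ) ^ k)).toFinset.finite_toSet).subset ?_
      intro z hz
      simp only [Finset.mem_coe, Multiset.mem_toFinset]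
      rw [Polynomial.mem_nthRoots (by norm_num)]
      exact hz
    have hinj : Function.Injective (fun c : Γ => (((c : ℂˣ) : ℂ))) := by
      intro c d h
      exact Subtype.ext (Units.ext h)
    refine (hfin.preimage hinj.injOn).subset ?_
    rintro c ⟨y, ⟨x, hxK, hxy⟩, hyL⟩
    obtain ⟨k, hk, hk2⟩ := norm_mem_Γ c
    simp only [Set.mem_preimage, Set.mem_iUnion]
    refine ⟨k, ⟨?_, ?_⟩, hk⟩
    · have hy : ‖(y : V)‖ = 2 ^ k * ‖(x : V)‖ := by
        rw [← hxy]; change ‖cL _ _‖ = _; rw [cL_norm, hk2]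
      have h1 : ‖(b : V)‖ ≤ ‖(y : V)‖ := hb hyL
      have h2 : ‖(x : V)‖ ≤ ‖(A : V)‖ := hA hxK
      rw [div_le_iff₀ hApos]
      calc ‖(b : V)‖ ≤ 2 ^ k * ‖(x : V)‖ := by rw [← hy]; exact h1
        _ ≤ 2 ^ k * ‖(A : V)‖ := by gcongr
    · have hy : ‖(y : V)‖ = 2 ^ k * ‖(x : V)‖ := by
        rw [← hxy]; change ‖cL _ _‖ = _; rw [cL_norm, hk2]
      have h1 : ‖(y : V)‖ ≤ ‖(B : V)‖ := hB hyL
      have h2 : ‖(a : V)‖ ≤ ‖(x : V)‖ := ha hxK
      rw [le_div_iff₀ hapos]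
      calc (2 : ℝ) ^ k * ‖(a : V)‖ ≤ 2 ^ k * ‖(x : V)‖ := by gcongr
        _ ≤ ‖(B : V)‖ := by rw [← hy]; exact h1

end Pool.Agent.Helper70.Engel
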