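import Pool.Agent.Helper70.EngelModel

/-!
The topological obstruction: there is no nowhere zero continuous `f` on `ℂ² ∖ 0` with
`f (i x) = - f x`.
-/

open Set Topology

namespace Pool.Agent.Helper70.Engel

/-- A parametrised sphere. -/
noncomputable def sph (p : ℝ × ℝ) : V :=
  !₂[Real.sin p.1 * Real.cos p.2, Real.sin p.1 * Real.sin p.2, Real.cos p.1, 0]

lemma sph_ne (p : ℝ × ℝ) : sph p ≠ 0 := by
  intro h
  have h0 : (sph p) 0 = 0 := by rw [h]; rfl
  have h1 : (sph p) 1 = 0 := by rw [h]; rfl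
  have h2 : (sph p) 2 = 0 := by rw [h]; rfl
  simp only [sph] at h0 h1 h2
  have h3 := Real.sin_sq_add_cos_sq p.1
  have h4 := Real.sin_sq_add_cos_sq p.2
  have e0 : Real.sin p.1 * Real.cos p.2 = 0 := h0
  have e1 : Real.sin p.1 * Real.sin p.2 = 0 := h1
  have e2 : Real.cos p.1 = 0 := h2
  have h5 : Real.sin p.1 ^ 2 * (Real.sin p.2 ^ 2 + Real.cos p.2 ^ 2) = 0 := by
    have : Real.sin p.1 ^ 2 * (Real.sin p.2 ^ 2 + Real.cos p.2 ^ 2) =
      (Real.sin p.1 * Real.sin p.2) ^ 2 + (Real.sin p.1 * Real.cos p.2) ^ 2 := by ring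
    rw [this, e0, e1]; ring
  rw [h4, mul_one] at h5
  rw [e2, h5] at h3
  norm_num at h3

lemma continuous_sph : Continuous sph := by
  unfold sph
  refine (PiLp.continuous_toLp 2 _).comp (continuous_pi fun i => ?_)
  fin_cases i
  · exact (Real.continuous_sin.comp continuous_fst).mul (Real.continuous_cos.comp continuous_snd)
  · exact (Real.continuous_sin.comp continuous_fst).mul (Real.continuous_sin.comp continuous_snd)
  · exact Real.continuous_cos.comp continuous_fst
  · exact continuous_const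

/-- A continuous function whose exponential is constant is constant. -/
lemma eq_of_exp_const {u : ℝ → ℂ} (hu : Continuous u) (h : ∀ t, Complex.exp (u t) =
    Complex.exp (u 0)) (t : ℝ) : u t = u 0 := by
  have h1 := Complex.isCoveringMap_exp.eq_of_comp_eq (A := ℝ) (g₁ := u) (g₂ := fun _ => u 0) hu
    continuous_const (by
      funext s
      exact Subtype.ext (h s)) 0 rfl
  exact congrFun h1 t

lemma no_odd_map (f : V → ℂ) (hc : ∀ x, x ≠ 0 → ContinuousAt f x) (h0 : ∀ x, x ≠ 0 → f x ≠ 0)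
    (hodd : ∀ x, x ≠ 0 → f (mI x) = - f x) : False := by
  have hFc : Continuous fun p : ℝ × ℝ => f (sph p) := by
    rw [continuous_iff_continuousAt]
    intro p
    exact ContinuousAt.comp (g := f) (f := sph) (hc _ (sph_ne p)) continuous_sph.continuousAt
  let F : C(ℝ × ℝ, {z : ℂ // z ≠ 0}) := ⟨fun p => ⟨f (sph p), h0 _ (sph_ne p)⟩,
    hFc.subtype_mk _⟩
  have : SimplyConnectedSpace (ℝ × ℝ) := SimplyConnectedSpace.ofContractible (ℝ × ℝ)
  obtain ⟨G, ⟨-, hG⟩, -⟩ := Complex.isCoveringMap_exp.existsUnique_continuousMap_lifts F (0, 0)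
    (Complex.log (f (sph (0, 0)))) (Subtype.ext (Complex.exp_log (h0 _ (sph_ne _))))
  have hG' : ∀ p : ℝ × ℝ, Complex.exp (G p) = f (sph p) := fun p =>
    congrArg Subtype.val (congrFun hG p)
  have hGc : Continuous G := G.continuous
  -- the pole
  have s1 : G (0, 2 * Real.pi) = G (0, 0) := by
    refine eq_of_exp_const (u := fun t => G (0, t)) (by fun_prop) (fun t => ?_) _
    simp only [hG']
    congr 1
    simp [sph]
  -- constancy of the winding number
  have s2 : G (Real.pi / 2, 2 * Real.pi) - G (Real.pi / 2, 0) = G (0, 2 * Real.pi) - G (0, 0) := by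
    refine eq_of_exp_const (u := fun r => G (r, 2 * Real.pi) - G (r, 0)) (by fun_prop)
      (fun r => ?_) _
    simp only [Complex.exp_sub, hG']
    have h1 : ∀ r : ℝ, sph (r, 2 * Real.pi) = sph (r, 0) := by
      intro r; simp [sph]
    rw [h1, h1, div_self (h0 _ (sph_ne _)), div_self (h0 _ (sph_ne _))]
  -- the equator
  have hquart : ∀ t : ℝ, f (sph (Real.pi / 2, t + Real.pi / 2)) = - f (sph (Real.pi / 2, t)) := by
    intro t
    rw [← hodd _ (sph_ne _)]
    congr 1
    ext i
    fin_cases i <;> simp [sph, Real.cos_add_pi_div_two, Real.sin_add_pi_div_two]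
  have s3 : ∀ t : ℝ, G (Real.pi / 2, t + Real.pi / 2) - G (Real.pi / 2, t) =
      G (Real.pi / 2, 0 + Real.pi / 2) - G (Real.pi / 2, 0) := by
    intro t
    refine eq_of_exp_const (u := fun t => G (Real.pi / 2, t + Real.pi / 2) - G (Real.pi / 2, t))
      (by fun_prop) (fun t => ?_) t
    simp only [Complex.exp_sub, hG', hquart]
    rw [neg_div, neg_div, div_self (h0 _ (sph_ne _)), div_self (h0 _ (sph_ne _))]
  set a := G (Real.pi / 2, 0 + Real.pi / 2) - G (Real.pi / 2, 0) with ha
  have t1 := s3 0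
  have t2 := s3 (0 + Real.pi / 2)
  have t3 := s3 (0 + Real.pi / 2 + Real.pi / 2)
  have t4 := s3 (0 + Real.pi / 2 + Real.pi / 2 + Real.pi / 2)
  have h2pi : (0 + Real.pi / 2 + Real.pi / 2 + Real.pi / 2 + Real.pi / 2 : ℝ) = 2 * Real.pi := by
    ring
  rw [h2pi] at t4
  have h4a : 4 * a = 0 := by
    have : 4 * a = G (Real.pi / 2, 2 * Real.pi) - G (Real.pi / 2, 0) := by
      linear_combination -t1 - t2 - t3 - t4
    rw [this, s2, s1, sub_self]
  have ha0 : a = 0 := by simpa using h4a
  have hexp : Complex.exp a = -1 := by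
    rw [ha, Complex.exp_sub, hG', hG', hquart, neg_div, div_self (h0 _ (sph_ne _))]
  rw [ha0, Complex.exp_zero] at hexp
  norm_num at hexp

end Pool.Agent.Helper70.Engel
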