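import Pool.Agent.Helper70.EngelCone
import Pool.Agent.Helper70.EngelTop

/-!
The nonexistence of Engel structures near `(ξ, F)`.
-/

open scoped Manifold ContDiff Topology
open Set VectorField Bundle Pool.Agent.EngelPerturbation

namespace Pool.Agent.Helper70.Engel

/-- The pull-back of a family of subspaces to the model. -/
noncomputable def Dt (D : (m : M) → Submodule ℝ (TangentSpace (𝓡 4) m)) (x : V) :
    Submodule ℝ V := (D (P x)).comap (dP x : V →ₗ[ℝ] TangentSpace (𝓡 4) (P x))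

lemma mem_Dt {D : (m : M) → Submodule ℝ (TangentSpace (𝓡 4) m)} {x v : V} :
    v ∈ Dt D x ↔ dP x v ∈ D (P x) := Iff.rfl

lemma pull_mem_Dt {D : (m : M) → Submodule ℝ (TangentSpace (𝓡 4) m)} {x : V} (hx : x ≠ 0)
    {X : (m : M) → TangentSpace (𝓡 4) m} : pull X x ∈ Dt D x ↔ X (P x) ∈ D (P x) := by
  rw [mem_Dt, dP_pull X hx]

lemma invS_Dt (D : (m : M) → Submodule ℝ (TangentSpace (𝓡 4) m)) : InvS (Dt D) := by
  intro c x hx v hv
  have hcx := cL_ne_zero (Units.ne_zero (c : ℂˣ)) hx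
  obtain ⟨c1, h1, h1'⟩ := dP_eq hx
  obtain ⟨c2, h2, h2'⟩ := dP_eq hcx
  have hP : P (cL ((c : ℂˣ) : ℂ) x) = P x := P_smul c hx
  rw [hP, ← h1] at h2
  have hcc : c2 * c = c1 := by
    have h3 : (c2 * c) • (⟨x, hx⟩ : U) = c1 • (⟨x, hx⟩ : U) := by
      apply Subtype.ext
      rw [smul_val, smul_val, ← h2, ← cL_mul]
      rfl
    exact IsCancelSMul.right_cancel _ _ _ h3
  rw [mem_Dt] at hv ⊢
  have h4 : (dP (cL ((c : ℂˣ) : ℂ) x) (cL ((c : ℂˣ) : ℂ) v) : V) = (dP x v : V) := by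
    rw [h2', h1', ← cL_mul, ← hcc]
    rfl
  have h5 : ∀ (m m' : M), m = m' → ∀ w : V, w ∈ (show Submodule ℝ V from D m) →
      w ∈ (show Submodule ℝ V from D m') := by
    rintro m m' rfl w hw
    exact hw
  have h6 : (dP x v : V) ∈ (show Submodule ℝ V from D (P x)) := hv
  rw [← h4] at h6
  exact h5 _ _ hP.symm _ h6

/-- Local frames pull back to local frames. -/
lemma local_frame {k : ℕ} {D : (m : M) → Submodule ℝ (TangentSpace (𝓡 4) m)}
    (hD : IsDistribution k D) {x : V} (hx : x ≠ 0) :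
    ∃ X : Fin k → (m : M) → TangentSpace (𝓡 4) m, (∀ i, IsSectionNear D (P x) (X i)) ∧
      LinearIndependent ℝ (fun i => pull (X i) x) ∧
      (∀ᶠ z in 𝓝 x, z ≠ 0 ∧ Dt D z = Submodule.span ℝ (Set.range fun i => pull (X i) z)) := by
  obtain ⟨X, hX, hlin, hev⟩ := hD (P x)
  refine ⟨X, fun i => ⟨hX i, hev.mono fun y hy => ?_⟩, ?_, ?_⟩
  · rw [hy]; exact Submodule.subset_span ⟨i, rfl⟩
  · have h1 : LinearIndependent ℝ (fun i => dP x (pull (X i) x)) := by
      simp only [dP_pull _ hx]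
      exact hlin
    exact LinearIndependent.of_comp (dP x : V →ₗ[ℝ] TangentSpace (𝓡 4) (P x)) h1
  · filter_upwards [eventually_P hx hev] with z hz
    obtain ⟨hz0, hz⟩ := hz
    refine ⟨hz0, ?_⟩
    ext v
    rw [mem_Dt, hz]
    have h2 : (Set.range fun i => X i (P z)) = (dP z) '' (Set.range fun i => pull (X i) z) := by
      rw [← Set.range_comp]
      congr 1
      funext i
      exact (dP_pull _ hz0).symm
    rw [h2]
    have h3 : Submodule.span ℝ ((dP z) '' (Set.range fun i => pull (X i) z)) =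
        (Submodule.span ℝ (Set.range fun i => pull (X i) z)).map
          (dP z : V →ₗ[ℝ] TangentSpace (𝓡 4) (P z)) := by
      rw [Submodule.map_span]; rfl
    rw [h3]
    constructor
    · rintro ⟨w, hw, hwv⟩
      have : w = v := dP_inj hz0 hwv
      rwa [← this]
    · intro hv
      exact ⟨v, hv, rfl⟩

lemma finrank_Dt {k : ℕ} {D : (m : M) → Submodule ℝ (TangentSpace (𝓡 4) m)}
    (hD : IsDistribution k D) {x : V} (hx : x ≠ 0) : Module.finrank ℝ (Dt D x) = k := by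
  obtain ⟨X, -, hlin, hev⟩ := local_frame hD hx
  rw [hev.self_of_nhds.2, finrank_span_eq_card hlin, Fintype.card_fin]

/-- In the model, vectors of `D` in the cone around `ξ` are nonzero in the quadratic form. -/
lemma qξ_pos_of_mem {D : (m : M) → Submodule ℝ (TangentSpace (𝓡 4) m)}
    (h : InCone (cone qξ) D) {x v : V} (hx : x ≠ 0) (hv : v ∈ Dt D x) (hv0 : v ≠ 0) :
    0 < qξ x v := by
  have h1 : dP x v ≠ 0 := fun h0 => hv0 (dP_inj hx (by rw [h0, map_zero]))
  have h2 : 0 < qξ (lift (P x)) (dP x v : V) := h (P x) (dP x v) hv h1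
  obtain ⟨c, hc, hc'⟩ := dP_eq hx
  rw [hc', ← hc] at h2
  exact (invQ_qξ c x v hx).1 h2

lemma qF_pos_of_mem {D : (m : M) → Submodule ℝ (TangentSpace (𝓡 4) m)}
    (h : InCone (cone qF) D) {x v : V} (hx : x ≠ 0) (hv : v ∈ Dt D x) (hv0 : v ≠ 0) :
    0 < qF x v := by
  have h1 : dP x v ≠ 0 := fun h0 => hv0 (dP_inj hx (by rw [h0, map_zero]))
  have h2 : 0 < qF (lift (P x)) (dP x v : V) := h (P x) (dP x v) hv h1
  obtain ⟨c, hc, hc'⟩ := dP_eq hx
  rw [hc', ← hc] at h2
  exact (invQ_qF c x v hx).1 h2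

/-- Uniqueness of vectors in `D` with given `J`, `K` components. -/
lemma Dt_unique {D : (m : M) → Submodule ℝ (TangentSpace (𝓡 4) m)}
    (h : InCone (cone qξ) D) {x v w : V} (hx : x ≠ 0) (hv : v ∈ Dt D x) (hw : w ∈ Dt D x)
    (h1 : inner ℝ (mJ x) v = inner ℝ (mJ x) w) (h2 : inner ℝ (mK x) v = inner ℝ (mK x) w) :
    v = w := by
  by_contra hne
  have h3 := qξ_pos_of_mem h hx (Submodule.sub_mem _ hv hw) (sub_ne_zero.2 hne)
  unfold qξ at h3
  simp only [inner_sub_right, h1, h2] at h3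
  nlinarith [sq_nonneg (inner ℝ (mI x) v - inner ℝ (mI x) w),
    sq_nonneg (inner ℝ x v - inner ℝ x w)]

/-- A local formula for vectors in `D` with given `J`, `K` components. -/
noncomputable def loc (X Y : V → V) (s t : ℝ) (z : V) : V :=
  (‖z‖ ^ 2 / (inner ℝ (mJ z) (X z) * inner ℝ (mK z) (Y z) -
    inner ℝ (mK z) (X z) * inner ℝ (mJ z) (Y z))) •
    ((s * inner ℝ (mK z) (Y z) - t * inner ℝ (mJ z) (Y z)) • X z +
      (t * inner ℝ (mJ z) (X z) - s * inner ℝ (mK z) (X z)) • Y z)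

lemma loc_inner {X Y : V → V} {s t : ℝ} {z : V}
    (hΔ : inner ℝ (mJ z) (X z) * inner ℝ (mK z) (Y z) -
      inner ℝ (mK z) (X z) * inner ℝ (mJ z) (Y z) ≠ 0) :
    inner ℝ (mJ z) (loc X Y s t z) = s * ‖z‖ ^ 2 ∧ inner ℝ (mK z) (loc X Y s t z) = t * ‖z‖ ^ 2 := by
  unfold loc
  simp only [inner_smul_right, inner_add_right]
  generalize inner ℝ (mJ z) (X z) = a at *
  generalize inner ℝ (mK z) (Y z) = b at *
  generalize inner ℝ (mK z) (X z) = c at *
  generalize inner ℝ (mJ z) (Y z) = d at *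
  constructor <;> field_simp <;> ring

/-- The determinant of a frame of `D` does not vanish. -/
lemma det_ne {D : (m : M) → Submodule ℝ (TangentSpace (𝓡 4) m)}
    (h : InCone (cone qξ) D) {x v w : V} (hx : x ≠ 0) (hv : v ∈ Dt D x) (hw : w ∈ Dt D x)
    (hlin : LinearIndependent ℝ ![v, w]) :
    inner ℝ (mJ x) v * inner ℝ (mK x) w - inner ℝ (mK x) v * inner ℝ (mJ x) w ≠ 0 := by
  intro h0
  rw [LinearIndependent.pair_iff] at hlin
  have h1 := hlin (inner ℝ (mK x) w) (- inner ℝ (mK x) v) (by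
    refine Dt_unique h hx (Submodule.add_mem _ (Submodule.smul_mem _ _ hv)
      (Submodule.smul_mem _ _ hw)) (Submodule.zero_mem _) ?_ ?_
    · simp only [inner_add_right, inner_smul_right, inner_zero_right]; linarith
    · simp only [inner_add_right, inner_smul_right, inner_zero_right]; ring)
  have h2 := hlin (inner ℝ (mJ x) w) (- inner ℝ (mJ x) v) (by
    refine Dt_unique h hx (Submodule.add_mem _ (Submodule.smul_mem _ _ hv)
      (Submodule.smul_mem _ _ hw)) (Submodule.zero_mem _) ?_ ?_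
    · simp only [inner_add_right, inner_smul_right, inner_zero_right]; ring
    · simp only [inner_add_right, inner_smul_right, inner_zero_right]; linarith)
  have e1 : inner ℝ (mJ x) v = 0 := by simpa using h2.2
  have e2 : inner ℝ (mK x) v = 0 := by simpa using h1.2
  have h3 : v = 0 := Dt_unique h hx hv (Submodule.zero_mem _) (by rw [e1, inner_zero_right])
    (by rw [e2, inner_zero_right])
  have h4 := hlin 1 0 (by rw [h3]; simp)
  exact one_ne_zero h4.1

section frame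

variable {D : (m : M) → Submodule ℝ (TangentSpace (𝓡 4) m)}

/-- A pair of vector fields on `M` framing `D` near a point, with all needed local properties. -/
lemma exists_frame (hD : IsDistribution 2 D) (hcone : InCone (cone qξ) D) {x : V} (hx : x ≠ 0) :
    ∃ X Y : (m : M) → TangentSpace (𝓡 4) m, IsSectionNear D (P x) X ∧ IsSectionNear D (P x) Y ∧
      (∀ᶠ z in 𝓝 x, z ≠ 0 ∧ pull X z ∈ Dt D z ∧ pull Y z ∈ Dt D z ∧
        inner ℝ (mJ z) (pull X z) * inner ℝ (mK z) (pull Y z) -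
          inner ℝ (mK z) (pull X z) * inner ℝ (mJ z) (pull Y z) ≠ 0) := by
  obtain ⟨X, hX, hlin, hev⟩ := local_frame hD hx
  refine ⟨X 0, X 1, hX 0, hX 1, ?_⟩
  have hmem : ∀ᶠ z in 𝓝 x, z ≠ 0 ∧ pull (X 0) z ∈ Dt D z ∧ pull (X 1) z ∈ Dt D z := by
    filter_upwards [hev] with z hz
    refine ⟨hz.1, ?_, ?_⟩
    · rw [hz.2]; exact Submodule.subset_span ⟨0, rfl⟩
    · rw [hz.2]; exact Submodule.subset_span ⟨1, rfl⟩
  have hc0 := (pull_contDiffAt (hX 0).1 hx).continuousAt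
  have hc1 := (pull_contDiffAt (hX 1).1 hx).continuousAt
  have hJ : ContinuousAt (fun z => mJ z) x := mJ.continuous.continuousAt
  have hK : ContinuousAt (fun z => mK z) x := mK.continuous.continuousAt
  have hcont : ContinuousAt (fun z => inner ℝ (mJ z) (pull (X 0) z) * inner ℝ (mK z) (pull (X 1) z) -
      inner ℝ (mK z) (pull (X 0) z) * inner ℝ (mJ z) (pull (X 1) z)) x :=
    ((hJ.inner hc0).mul (hK.inner hc1)).sub ((hK.inner hc0).mul (hJ.inner hc1))
  have hlin' : LinearIndependent ℝ ![pull (X 0) x, pull (X 1) x] := by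
    convert hlin using 1
    funext i; fin_cases i <;> rfl
  have hne := det_ne hcone hx hmem.self_of_nhds.2.1 hmem.self_of_nhds.2.2 hlin'
  filter_upwards [hmem, hcont.eventually_ne hne] with z hz1 hz2
  exact ⟨hz1.1, hz1.2.1, hz1.2.2, hz2⟩

lemma exists_vec (hD : IsDistribution 2 D) (hcone : InCone (cone qξ) D) (s t : ℝ) {x : V}
    (hx : x ≠ 0) : ∃ v, v ∈ Dt D x ∧ inner ℝ (mJ x) v = s * ‖x‖ ^ 2 ∧
      inner ℝ (mK x) v = t * ‖x‖ ^ 2 := by
  obtain ⟨X, Y, -, -, hev⟩ := exists_frame hD hcone hx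
  obtain ⟨-, h1, h2, h3⟩ := hev.self_of_nhds
  refine ⟨loc (pull X) (pull Y) s t x, ?_, loc_inner h3⟩
  exact Submodule.smul_mem _ _ (Submodule.add_mem _ (Submodule.smul_mem _ _ h1)
    (Submodule.smul_mem _ _ h2))

open Classical in
/-- The section of `D` with prescribed `J`, `K` components. -/
noncomputable def sec (D : (m : M) → Submodule ℝ (TangentSpace (𝓡 4) m)) (s t : ℝ) (x : V) : V :=
  if h : ∃ v, v ∈ Dt D x ∧ inner ℝ (mJ x) v = s * ‖x‖ ^ 2 ∧ inner ℝ (mK x) v = t * ‖x‖ ^ 2 then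
    h.choose else 0

variable (hD : IsDistribution 2 D) (hcone : InCone (cone qξ) D)
include hD hcone

lemma sec_spec (s t : ℝ) {x : V} (hx : x ≠ 0) : sec D s t x ∈ Dt D x ∧
    inner ℝ (mJ x) (sec D s t x) = s * ‖x‖ ^ 2 ∧ inner ℝ (mK x) (sec D s t x) = t * ‖x‖ ^ 2 := by
  have h := exists_vec hD hcone s t hx
  rw [sec, dif_pos h]
  exact h.choose_spec

lemma sec_contDiffAt (s t : ℝ) {x : V} (hx : x ≠ 0) : ContDiffAt ℝ ∞ (sec D s t) x := by
  obtain ⟨X, Y, hX, hY, hev⟩ := exists_frame hD hcone hx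
  have h1 : sec D s t =ᶠ[𝓝 x] loc (pull X) (pull Y) s t := by
    filter_upwards [hev] with z hz
    obtain ⟨hz0, hz1, hz2, hz3⟩ := hz
    obtain ⟨h4, h5, h6⟩ := sec_spec hD hcone s t hz0
    have h7 := loc_inner (s := s) (t := t) hz3
    refine Dt_unique hcone hz0 h4 ?_ (by rw [h5, h7.1]) (by rw [h6, h7.2])
    exact Submodule.smul_mem _ _ (Submodule.add_mem _ (Submodule.smul_mem _ _ hz1)
      (Submodule.smul_mem _ _ hz2))
  refine ContDiffAt.congr_of_eventuallyEq ?_ h1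
  have cX := pull_contDiffAt hX.1 hx
  have cY := pull_contDiffAt hY.1 hx
  have cJ : ContDiffAt ℝ ∞ (fun z => mJ z) x := mJ.contDiff.contDiffAt
  have cK : ContDiffAt ℝ ∞ (fun z => mK z) x := mK.contDiff.contDiffAt
  have hΔ := hev.self_of_nhds.2.2.2
  unfold loc
  have e1 := cJ.inner ℝ cX
  have e2 := cK.inner ℝ cY
  have e3 := cK.inner ℝ cX
  have e4 := cJ.inner ℝ cY
  have cn : ContDiffAt ℝ ∞ (fun z : V => ‖z‖ ^ 2) x := (contDiff_norm_sq ℝ).contDiffAt
  exact (cn.div ((e1.mul e2).sub (e3.mul e4)) hΔ).smul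
    ((((contDiffAt_const.mul e2).sub (contDiffAt_const.mul e4)).smul cX).add
      (((contDiffAt_const.mul e1).sub (contDiffAt_const.mul e3)).smul cY))

lemma Dt_expand {x v : V} (hx : x ≠ 0) (hv : v ∈ Dt D x) :
    ‖x‖ ^ 2 • v = inner ℝ (mJ x) v • sec D 1 0 x + inner ℝ (mK x) v • sec D 0 1 x := by
  obtain ⟨a1, a2, a3⟩ := sec_spec hD hcone 1 0 hx
  obtain ⟨b1, b2, b3⟩ := sec_spec hD hcone 0 1 hx
  refine Dt_unique hcone hx (Submodule.smul_mem _ _ hv) (Submodule.add_mem _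
    (Submodule.smul_mem _ _ a1) (Submodule.smul_mem _ _ b1)) ?_ ?_
  · simp only [inner_add_right, inner_smul_right, a2, b2]; ring
  · simp only [inner_add_right, inner_smul_right, a3, b3]; ring

/-- Equivariance of the sections. -/
lemma sec_mI (s t : ℝ) {x : V} (hx : x ≠ 0) : sec D s t (mI x) = - mI (sec D s t x) := by
  have hIx : mI x ≠ 0 := by
    intro h
    have h1 : ‖mI x‖ ^ 2 = ‖x‖ ^ 2 := by rw [norm_sq_eq, norm_sq_eq]; simp; ring
    rw [h, norm_zero] at h1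
    exact hx (by simpa using h1.symm)
  have hu : (Units.mk0 Complex.I Complex.I_ne_zero : ℂˣ) ∈ Γ := ⟨0, by simp⟩
  have hcI : ∀ y : V, cL Complex.I y = mI y := by
    intro y; ext i; fin_cases i <;> simp [cL_apply]
  obtain ⟨a1, a2, a3⟩ := sec_spec hD hcone s t hx
  obtain ⟨b1, b2, b3⟩ := sec_spec hD hcone s t hIx
  have hn : ‖mI x‖ ^ 2 = ‖x‖ ^ 2 := by rw [norm_sq_eq, norm_sq_eq]; simp; ring
  have h2 := invS_Dt D ⟨_, hu⟩ x hx _ a1
  simp only [Units.val_mk0, hcI] at h2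
  refine Dt_unique hcone hIx b1 (Submodule.neg_mem _ h2) ?_ ?_
  · rw [b2, inner_neg_right]
    have h3 : inner ℝ (mJ (mI x)) (mI (sec D s t x)) = - inner ℝ (mJ x) (sec D s t x) := by
      simp only [inner_eq]; simp; ring
    rw [h3, a2, neg_neg, hn]
  · rw [b3, inner_neg_right]
    have h3 : inner ℝ (mK (mI x)) (mI (sec D s t x)) = - inner ℝ (mK x) (sec D s t x) := by
      simp only [inner_eq]; simp; ring
    rw [h3, a3, neg_neg, hn]

end frame

end Pool.Agent.Helper70.Engel
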