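import Pool.Agent.Helper70.EngelNeg

/-!
The one-forms defining an Engel structure near `(ξ, F)` and the resulting map.
-/

open scoped Manifold ContDiff Topology
open Set VectorField Bundle Pool.Agent.EngelPerturbation

namespace Pool.Agent.Helper70.Engel

variable (D : (m : M) → Submodule ℝ (TangentSpace (𝓡 4) m))

/-- The first section of the canonical frame. -/
noncomputable def fA (x : V) : V := sec D 1 0 x

/-- The second section of the canonical frame. -/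
noncomputable def fB (x : V) : V := sec D 0 1 x

/-- The bracket of the canonical frame. -/
noncomputable def fZ (x : V) : V := lieBracket ℝ (fA D) (fB D) x

/-- The first form vanishing on `D`. -/
noncomputable def β₁ (x : V) : V →L[ℝ] ℝ :=
  ‖x‖ ^ 2 • innerSL ℝ (mI x) - inner ℝ (mI x) (fA D x) • innerSL ℝ (mJ x) -
    inner ℝ (mI x) (fB D x) • innerSL ℝ (mK x)

/-- The second form vanishing on `D`. -/
noncomputable def β₂ (x : V) : V →L[ℝ] ℝ :=
  ‖x‖ ^ 2 • innerSL ℝ x - inner ℝ x (fA D x) • innerSL ℝ (mJ x) -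
    inner ℝ x (fB D x) • innerSL ℝ (mK x)

/-- The form vanishing on the derived distribution. -/
noncomputable def β (x : V) : V →L[ℝ] ℝ :=
  β₁ D x (fZ D x) • β₂ D x - β₂ D x (fZ D x) • β₁ D x

lemma β₁_apply (x v : V) : β₁ D x v = ‖x‖ ^ 2 * inner ℝ (mI x) v -
    inner ℝ (mI x) (fA D x) * inner ℝ (mJ x) v - inner ℝ (mI x) (fB D x) * inner ℝ (mK x) v := by
  simp only [β₁, sub_apply, smul_apply,
    innerSL_apply_apply, smul_eq_mul]

lemma β₂_apply (x v : V) : β₂ D x v = ‖x‖ ^ 2 * inner ℝ x v -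
    inner ℝ x (fA D x) * inner ℝ (mJ x) v - inner ℝ x (fB D x) * inner ℝ (mK x) v := by
  simp only [β₂, sub_apply, smul_apply,
    innerSL_apply_apply, smul_eq_mul]

lemma β_apply (x v : V) : β D x v =
    β₁ D x (fZ D x) * β₂ D x v - β₂ D x (fZ D x) * β₁ D x v := by
  simp only [β, sub_apply, smul_apply, smul_eq_mul]

variable {D}
variable (hD : IsDistribution 2 D) (hcone : InCone (cone qξ) D)
include hD hcone

lemma fA_contDiffAt {x : V} (hx : x ≠ 0) : ContDiffAt ℝ ∞ (fA D) x :=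
  sec_contDiffAt hD hcone 1 0 hx

lemma fB_contDiffAt {x : V} (hx : x ≠ 0) : ContDiffAt ℝ ∞ (fB D) x :=
  sec_contDiffAt hD hcone 0 1 hx

lemma fZ_contDiffAt {x : V} (hx : x ≠ 0) : ContDiffAt ℝ ∞ (fZ D) x :=
  (fA_contDiffAt hD hcone hx).lieBracket_vectorField (fB_contDiffAt hD hcone hx) (by simp)

lemma β₁_contDiffAt {x : V} (hx : x ≠ 0) : ContDiffAt ℝ ∞ (β₁ D) x := by
  have cA := fA_contDiffAt hD hcone hx
  have cB := fB_contDiffAt hD hcone hx
  have cI : ContDiffAt ℝ ∞ (fun z => mI z) x := mI.contDiff.contDiffAt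
  have iI : ContDiffAt ℝ ∞ (fun z : V => (innerSL ℝ (mI z) : V →L[ℝ] ℝ)) x :=
    ((innerSL ℝ : V →L[ℝ] V →L[ℝ] ℝ).contDiff.comp mI.contDiff).contDiffAt
  have iJ : ContDiffAt ℝ ∞ (fun z : V => (innerSL ℝ (mJ z) : V →L[ℝ] ℝ)) x :=
    ((innerSL ℝ : V →L[ℝ] V →L[ℝ] ℝ).contDiff.comp mJ.contDiff).contDiffAt
  have iK : ContDiffAt ℝ ∞ (fun z : V => (innerSL ℝ (mK z) : V →L[ℝ] ℝ)) x :=
    ((innerSL ℝ : V →L[ℝ] V →L[ℝ] ℝ).contDiff.comp mK.contDiff).contDiffAt
  have cn : ContDiffAt ℝ ∞ (fun z : V => ‖z‖ ^ 2) x := (contDiff_norm_sq ℝ).contDiffAt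
  exact ((cn.smul iI).sub ((cI.inner ℝ cA).smul iJ)).sub ((cI.inner ℝ cB).smul iK)

lemma β₂_contDiffAt {x : V} (hx : x ≠ 0) : ContDiffAt ℝ ∞ (β₂ D) x := by
  have cA := fA_contDiffAt hD hcone hx
  have cB := fB_contDiffAt hD hcone hx
  have cT : ContDiffAt ℝ ∞ (fun z : V => z) x := contDiffAt_id
  have iT : ContDiffAt ℝ ∞ (fun z : V => (innerSL ℝ z : V →L[ℝ] ℝ)) x :=
    (innerSL ℝ : V →L[ℝ] V →L[ℝ] ℝ).contDiff.contDiffAt
  have iJ : ContDiffAt ℝ ∞ (fun z : V => (innerSL ℝ (mJ z) : V →L[ℝ] ℝ)) x :=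
    ((innerSL ℝ : V →L[ℝ] V →L[ℝ] ℝ).contDiff.comp mJ.contDiff).contDiffAt
  have iK : ContDiffAt ℝ ∞ (fun z : V => (innerSL ℝ (mK z) : V →L[ℝ] ℝ)) x :=
    ((innerSL ℝ : V →L[ℝ] V →L[ℝ] ℝ).contDiff.comp mK.contDiff).contDiffAt
  have cn : ContDiffAt ℝ ∞ (fun z : V => ‖z‖ ^ 2) x := (contDiff_norm_sq ℝ).contDiffAt
  exact ((cn.smul iT).sub ((cT.inner ℝ cA).smul iJ)).sub ((cT.inner ℝ cB).smul iK)

lemma β_contDiffAt {x : V} (hx : x ≠ 0) : ContDiffAt ℝ ∞ (β D) x := by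
  have c1 := β₁_contDiffAt hD hcone hx
  have c2 := β₂_contDiffAt hD hcone hx
  have cZ := fZ_contDiffAt hD hcone hx
  exact ((c1.clm_apply cZ).smul c2).sub ((c2.clm_apply cZ).smul c1)

lemma β₁_fA {x : V} (hx : x ≠ 0) : β₁ D x (fA D x) = 0 := by
  obtain ⟨-, a2, a3⟩ := sec_spec hD hcone 1 0 hx
  rw [β₁_apply]
  unfold fA
  rw [a2, a3]
  ring

lemma β₁_fB {x : V} (hx : x ≠ 0) : β₁ D x (fB D x) = 0 := by
  obtain ⟨-, a2, a3⟩ := sec_spec hD hcone 0 1 hx
  rw [β₁_apply]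
  unfold fB
  rw [a2, a3]
  ring

lemma β₂_fA {x : V} (hx : x ≠ 0) : β₂ D x (fA D x) = 0 := by
  obtain ⟨-, a2, a3⟩ := sec_spec hD hcone 1 0 hx
  rw [β₂_apply]
  unfold fA
  rw [a2, a3]
  ring

lemma β₂_fB {x : V} (hx : x ≠ 0) : β₂ D x (fB D x) = 0 := by
  obtain ⟨-, a2, a3⟩ := sec_spec hD hcone 0 1 hx
  rw [β₂_apply]
  unfold fB
  rw [a2, a3]
  ring

lemma β_fA {x : V} (hx : x ≠ 0) : β D x (fA D x) = 0 := by
  rw [β_apply, β₁_fA hD hcone hx, β₂_fA hD hcone hx]; ring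

lemma β_fB {x : V} (hx : x ≠ 0) : β D x (fB D x) = 0 := by
  rw [β_apply, β₁_fB hD hcone hx, β₂_fB hD hcone hx]; ring

omit hD hcone in
lemma β_fZ {x : V} : β D x (fZ D x) = 0 := by
  rw [β_apply]; ring

lemma Dt_expand' {x v : V} (hx : x ≠ 0) (hv : v ∈ Dt D x) :
    ∃ a b : ℝ, v = a • fA D x + b • fB D x := by
  have h1 := Dt_expand hD hcone hx hv
  have hn : ‖x‖ ^ 2 ≠ 0 := by positivity
  refine ⟨(‖x‖ ^ 2)⁻¹ * inner ℝ (mJ x) v, (‖x‖ ^ 2)⁻¹ * inner ℝ (mK x) v, ?_⟩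
  rw [mul_smul, mul_smul, ← smul_add]
  unfold fA fB
  rw [← h1, smul_smul, inv_mul_cancel₀ hn, one_smul]

/-- Forms killing `A` and `B` near `x`: their value on brackets of sections of `D`. -/
lemma form_bracket_D {x : V} (hx : x ≠ 0)
    {X Y : (m : M) → TangentSpace (𝓡 4) m} (hX : IsSectionNear D (P x) X)
    (hY : IsSectionNear D (P x) Y) :
    ∃ c : ℝ, (∀ γ' : V → V →L[ℝ] ℝ, DifferentiableAt ℝ γ' x →
      (∀ z, z ≠ 0 → γ' z (fA D z) = 0) → (∀ z, z ≠ 0 → γ' z (fB D z) = 0) →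
      γ' x (lieBracket ℝ (pull X) (pull Y) x) = c * γ' x (fZ D x)) := by
  obtain ⟨-, hx1⟩ := (eventually_P hx hX.2).self_of_nhds
  obtain ⟨-, hy1⟩ := (eventually_P hx hY.2).self_of_nhds
  obtain ⟨a, b, hXx⟩ := Dt_expand' hD hcone hx ((pull_mem_Dt hx).2 hx1)
  obtain ⟨c, d, hYx⟩ := Dt_expand' hD hcone hx ((pull_mem_Dt hx).2 hy1)
  refine ⟨a * d - b * c, ?_⟩
  intro γ' hγ' hA' hB'
  have hne : ∀ᶠ z : V in 𝓝 x, z ≠ 0 := isOpen_compl_singleton.mem_nhds hx
  have key : ∀ {W : (m : M) → TangentSpace (𝓡 4) m}, IsSectionNear D (P x) W →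
      ∀ᶠ z in 𝓝 x, γ' z (pull W z) = 0 := by
    intro W hW
    filter_upwards [eventually_P hx hW.2] with z hz
    obtain ⟨hz0, hz⟩ := hz
    obtain ⟨s, t, hst⟩ := Dt_expand' hD hcone hz0 ((pull_mem_Dt hz0).2 hz)
    rw [hst, map_add, map_smul, map_smul, hA' z hz0, hB' z hz0]
    simp
  have h1 := form_bracket hγ' ((pull_contDiffAt hX.1 hx).differentiableAt (by simp))
    ((pull_contDiffAt hY.1 hx).differentiableAt (by simp)) (key hX) (key hY)
  have h2 := form_bracket hγ' ((fA_contDiffAt hD hcone hx).differentiableAt (by simp))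
    ((fB_contDiffAt hD hcone hx).differentiableAt (by simp)) (hne.mono hA') (hne.mono hB')
  rw [h1]
  change _ = _ * γ' x (lieBracket ℝ (fA D) (fB D) x)
  rw [h2, hXx, hYx]
  simp only [map_add, map_smul, add_apply, smul_apply, smul_eq_mul]
  ring

/-- The derived distribution is annihilated by `β`. -/
lemma β_derived {x v : V} (hx : x ≠ 0) (hv : v ∈ Dt (derived D) x) : β D x v = 0 := by
  have hle : derived D (P x) ≤ (LinearMap.ker (β D x : V →ₗ[ℝ] ℝ)).map
      (dP x : V →ₗ[ℝ] TangentSpace (𝓡 4) (P x)) := by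
    rw [derived, Submodule.span_le]
    rintro w ⟨X, Y, hX, hY, rfl | rfl⟩
    · refine ⟨pull X x, ?_, dP_pull X hx⟩
      obtain ⟨s, t, hst⟩ := Dt_expand' hD hcone hx ((pull_mem_Dt hx).2 hX.2.self_of_nhds)
      change β D x (pull X x) = 0
      rw [hst, map_add, map_smul, map_smul, β_fA hD hcone hx, β_fB hD hcone hx]
      simp
    · refine ⟨lieBracket ℝ (pull X) (pull Y) x, ?_, pull_bracket hX.1 hY.1 hx⟩
      change β D x (lieBracket ℝ (pull X) (pull Y) x) = 0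
      obtain ⟨c, hc⟩ := form_bracket_D hD hcone hx hX hY
      rw [hc _ ((β_contDiffAt hD hcone hx).differentiableAt (by simp))
        (fun z hz => β_fA hD hcone hz) (fun z hz => β_fB hD hcone hz), β_fZ, mul_zero]
  obtain ⟨w, hw, hwv⟩ := hle hv
  have : w = v := dP_inj hx hwv
  rw [← this]
  exact hw

lemma β₁_mI {x : V} : β₁ D x (mI x) = (‖x‖ ^ 2) ^ 2 := by
  rw [β₁_apply]
  have h1 : inner ℝ (mI x) (mI x) = ‖x‖ ^ 2 := by
    rw [inner_eq, norm_sq_eq]; simp; ring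
  have h2 : inner ℝ (mJ x) (mI x) = 0 := by rw [inner_eq]; simp; ring
  have h3 : inner ℝ (mK x) (mI x) = 0 := by rw [inner_eq]; simp; ring
  rw [h1, h2, h3]; ring

lemma β₁_self {x : V} : β₁ D x x = 0 := by
  rw [β₁_apply]
  have h1 : inner ℝ (mI x) x = 0 := by rw [inner_eq]; simp; ring
  have h2 : inner ℝ (mJ x) x = 0 := by rw [inner_eq]; simp; ring
  have h3 : inner ℝ (mK x) x = 0 := by rw [inner_eq]; simp; ring
  rw [h1, h2, h3]; ring

lemma β₂_self {x : V} : β₂ D x x = (‖x‖ ^ 2) ^ 2 := by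
  rw [β₂_apply]
  have h1 : inner ℝ x x = ‖x‖ ^ 2 := real_inner_self_eq_norm_sq x
  have h2 : inner ℝ (mJ x) x = 0 := by rw [inner_eq]; simp; ring
  have h3 : inner ℝ (mK x) x = 0 := by rw [inner_eq]; simp; ring
  rw [h1, h2, h3]; ring

lemma β₂_mI {x : V} : β₂ D x (mI x) = 0 := by
  rw [β₂_apply]
  have h1 : inner ℝ x (mI x) = 0 := by rw [inner_eq]; simp; ring
  have h2 : inner ℝ (mJ x) (mI x) = 0 := by rw [inner_eq]; simp; ring
  have h3 : inner ℝ (mK x) (mI x) = 0 := by rw [inner_eq]; simp; ring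
  rw [h1, h2, h3]; ring

/-- Vectors killed by both forms are combinations of `A` and `B`. -/
lemma ker_forms {x v : V} (hx : x ≠ 0) (h1 : β₁ D x v = 0) (h2 : β₂ D x v = 0) :
    ∃ a b : ℝ, v = a • fA D x + b • fB D x := by
  have hn : ‖x‖ ^ 2 ≠ 0 := by positivity
  obtain ⟨-, a2, a3⟩ := sec_spec hD hcone 1 0 hx
  obtain ⟨-, b2, b3⟩ := sec_spec hD hcone 0 1 hx
  have e0 := frame_expand x v
  have eA := frame_expand x (fA D x)
  have eB := frame_expand x (fB D x)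
  rw [β₁_apply] at h1
  rw [β₂_apply] at h2
  unfold fA fB at *
  rw [a2, a3] at eA
  rw [b2, b3] at eB
  set A := sec D 1 0 x
  set B := sec D 0 1 x
  set n := ‖x‖ ^ 2 with hndef
  have hI : inner ℝ (mI x) v = n⁻¹ * (inner ℝ (mI x) A * inner ℝ (mJ x) v +
      inner ℝ (mI x) B * inner ℝ (mK x) v) := by
    field_simp
    linarith
  have hT : inner ℝ x v = n⁻¹ * (inner ℝ x A * inner ℝ (mJ x) v +
      inner ℝ x B * inner ℝ (mK x) v) := by
    field_simp
    linarith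
  rw [hI, hT] at e0
  refine ⟨n⁻¹ * inner ℝ (mJ x) v, n⁻¹ * inner ℝ (mK x) v, ?_⟩
  have e1 : n • v = n • ((n⁻¹ * inner ℝ (mJ x) v) • A + (n⁻¹ * inner ℝ (mK x) v) • B) := by
    rw [e0]
    have hA' : A = n⁻¹ • (inner ℝ x A • x + inner ℝ (mI x) A • mI x + (1 * n) • mJ x +
        (0 * n) • mK x) := by
      rw [← eA, smul_smul, inv_mul_cancel₀ hn, one_smul]
    have hB' : B = n⁻¹ • (inner ℝ x B • x + inner ℝ (mI x) B • mI x + (0 * n) • mJ x +
        (1 * n) • mK x) := by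
      rw [← eB, smul_smul, inv_mul_cancel₀ hn, one_smul]
    have hrhs : n • ((n⁻¹ * inner ℝ (mJ x) v) • A + (n⁻¹ * inner ℝ (mK x) v) • B) =
        inner ℝ (mJ x) v • A + inner ℝ (mK x) v • B := by
      rw [smul_add, smul_smul, smul_smul, mul_inv_cancel_left₀ hn, mul_inv_cancel_left₀ hn]
    rw [hrhs]
    conv_rhs => rw [hA', hB']
    simp only [one_mul, zero_mul, zero_smul, add_zero, smul_add, smul_smul,
      inv_mul_cancel₀ hn]
    module
  have e2 := congrArg (fun w => n⁻¹ • w) e1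
  simpa only [smul_smul, inv_mul_cancel₀ hn, one_smul] using e2

/-- The bracket of the canonical frame is not in `D`. -/
lemma fZ_ne (hD3 : IsDistribution 3 (derived D)) {x : V} (hx : x ≠ 0) :
    0 < β₁ D x (fZ D x) ^ 2 + β₂ D x (fZ D x) ^ 2 := by
  by_contra hcon
  have h01 : β₁ D x (fZ D x) = 0 := by
    nlinarith [sq_nonneg (β₁ D x (fZ D x)), sq_nonneg (β₂ D x (fZ D x))]
  have h02 : β₂ D x (fZ D x) = 0 := by
    nlinarith [sq_nonneg (β₁ D x (fZ D x)), sq_nonneg (β₂ D x (fZ D x))]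
  have hle : derived D (P x) ≤ (Submodule.span ℝ {fA D x, fB D x}).map
      (dP x : V →ₗ[ℝ] TangentSpace (𝓡 4) (P x)) := by
    rw [derived, Submodule.span_le]
    rintro w ⟨X, Y, hX, hY, rfl | rfl⟩
    · refine ⟨pull X x, ?_, dP_pull X hx⟩
      obtain ⟨s, t, hst⟩ := Dt_expand' hD hcone hx ((pull_mem_Dt hx).2 hX.2.self_of_nhds)
      exact Submodule.mem_span_pair.2 ⟨s, t, hst.symm⟩
    · refine ⟨lieBracket ℝ (pull X) (pull Y) x, ?_, pull_bracket hX.1 hY.1 hx⟩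
      obtain ⟨c, hc⟩ := form_bracket_D hD hcone hx hX hY
      have e1 := hc _ ((β₁_contDiffAt hD hcone hx).differentiableAt (by simp))
        (fun z hz => β₁_fA hD hcone hz) (fun z hz => β₁_fB hD hcone hz)
      have e2 := hc _ ((β₂_contDiffAt hD hcone hx).differentiableAt (by simp))
        (fun z hz => β₂_fA hD hcone hz) (fun z hz => β₂_fB hD hcone hz)
      rw [h01, mul_zero] at e1
      rw [h02, mul_zero] at e2
      obtain ⟨s, t, hst⟩ := ker_forms hD hcone hx e1 e2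
      exact Submodule.mem_span_pair.2 ⟨s, t, hst.symm⟩
  have hle' : Dt (derived D) x ≤ Submodule.span ℝ {fA D x, fB D x} := by
    intro v hv
    obtain ⟨w, hw, hwv⟩ := hle hv
    have : w = v := dP_inj hx hwv
    rwa [← this]
  have h3 := Submodule.finrank_mono hle'
  rw [finrank_Dt hD3 hx] at h3
  have h4 : Module.finrank ℝ (Submodule.span ℝ ({fA D x, fB D x} : Set V)) ≤ 2 := by
    classical
    have h5 := finrank_span_finset_le_card (R := ℝ) ({fA D x, fB D x} : Finset V)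
    have h6 : (({fA D x, fB D x} : Finset V) : Set V) = {fA D x, fB D x} := by simp
    rw [Set.finrank, h6] at h5
    exact h5.trans Finset.card_le_two
  omega

/-- Vectors in the kernel of `β` are combinations of `A`, `B`, `Z`. -/
lemma ker_β (hD3 : IsDistribution 3 (derived D))
    {x v : V} (hx : x ≠ 0) (h : β D x v = 0) :
    ∃ a b c : ℝ, v = a • fA D x + b • fB D x + c • fZ D x := by
  have hZ := fZ_ne hD hcone hD3 hx
  rw [β_apply] at h
  set a₁ := β₁ D x (fZ D x) with ha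
  set b₁ := β₂ D x (fZ D x) with hb
  set c := (a₁ * β₁ D x v + b₁ * β₂ D x v) / (a₁ ^ 2 + b₁ ^ 2) with hc
  have hZ' : a₁ ^ 2 + b₁ ^ 2 ≠ 0 := hZ.ne'
  obtain ⟨a, b, hab⟩ := ker_forms hD hcone (v := v - c • fZ D x) hx
    (by
      rw [map_sub, map_smul, smul_eq_mul, ← ha, hc]
      field_simp
      linear_combination -b₁ * h)
    (by
      rw [map_sub, map_smul, smul_eq_mul, ← hb, hc]
      field_simp
      linear_combination a₁ * h)
  refine ⟨a, b, c, ?_⟩
  rw [← hab]; abel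

/-- The Engel condition: one of the two values does not vanish. -/
lemma engel_cond (hE : IsEngel D)
    {x : V} (hx : x ≠ 0) (hA : β D x (lieBracket ℝ (fA D) (fZ D) x) = 0)
    (hB : β D x (lieBracket ℝ (fB D) (fZ D) x) = 0) : False := by
  obtain ⟨-, hD3, htop⟩ := hE
  have hβd := (β_contDiffAt hD hcone hx).differentiableAt (by simp : (∞ : WithTop ℕ∞) ≠ 0)
  have dA := (fA_contDiffAt hD hcone hx).differentiableAt (by simp : (∞ : WithTop ℕ∞) ≠ 0)
  have dB := (fB_contDiffAt hD hcone hx).differentiableAt (by simp : (∞ : WithTop ℕ∞) ≠ 0)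
  have dZ := (fZ_contDiffAt hD hcone hx).differentiableAt (by simp : (∞ : WithTop ℕ∞) ≠ 0)
  have hne : ∀ᶠ z : V in 𝓝 x, z ≠ 0 := isOpen_compl_singleton.mem_nhds hx
  have eA : ∀ᶠ z in 𝓝 x, β D z (fA D z) = 0 := hne.mono fun z hz => β_fA hD hcone hz
  have eB : ∀ᶠ z in 𝓝 x, β D z (fB D z) = 0 := hne.mono fun z hz => β_fB hD hcone hz
  have eZ : ∀ᶠ z in 𝓝 x, β D z (fZ D z) = 0 := hne.mono fun z _ => β_fZ
  have k1 := form_bracket hβd dA dB eA eB
  have k2 := form_bracket hβd dA dZ eA eZ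
  have k3 := form_bracket hβd dB dZ eB eZ
  have hZ0 : β D x (lieBracket ℝ (fA D) (fB D) x) = 0 := β_fZ
  rw [hZ0] at k1
  rw [hA] at k2
  rw [hB] at k3
  have hle : derived (derived D) (P x) ≤ (LinearMap.ker (β D x : V →ₗ[ℝ] ℝ)).map
      (dP x : V →ₗ[ℝ] TangentSpace (𝓡 4) (P x)) := by
    rw [derived, Submodule.span_le]
    rintro w ⟨X, Y, hX, hY, rfl | rfl⟩
    · refine ⟨pull X x, ?_, dP_pull X hx⟩
      exact β_derived hD hcone hx ((pull_mem_Dt hx).2 hX.2.self_of_nhds)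
    · refine ⟨lieBracket ℝ (pull X) (pull Y) x, ?_, pull_bracket hX.1 hY.1 hx⟩
      have key : ∀ {W : (m : M) → TangentSpace (𝓡 4) m}, IsSectionNear (derived D) (P x) W →
          ∀ᶠ z in 𝓝 x, β D z (pull W z) = 0 := by
        intro W hW
        filter_upwards [eventually_P hx hW.2] with z hz
        exact β_derived hD hcone hz.1 ((pull_mem_Dt hz.1).2 hz.2)
      have h1 := form_bracket hβd ((pull_contDiffAt hX.1 hx).differentiableAt (by simp))
        ((pull_contDiffAt hY.1 hx).differentiableAt (by simp)) (key hX) (key hY)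
      change β D x (lieBracket ℝ (pull X) (pull Y) x) = 0
      rw [h1]
      obtain ⟨a, b, c, hu⟩ := ker_β hD hcone hD3 hx (key hX).self_of_nhds
      obtain ⟨a', b', c', hu'⟩ := ker_β hD hcone hD3 hx (key hY).self_of_nhds
      rw [hu, hu']
      simp only [map_add, map_smul, add_apply, smul_apply, smul_eq_mul]
      linear_combination (-(a * b') + b * a') * k1 + (-(a * c') + c * a') * k2 +
        (-(b * c') + c * b') * k3
  have hall : ∀ v : V, β D x v = 0 := by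
    intro v
    have h3 : dP x v ∈ derived (derived D) (P x) := by rw [htop]; trivial
    obtain ⟨w, hw, hwv⟩ := hle h3
    have : w = v := dP_inj hx hwv
    rw [this] at hw
    exact hw
  have h4 : (‖x‖ ^ 2) ^ 2 ≠ 0 := by positivity
  have h5 := hall x
  have h6 := hall (mI x)
  rw [β_apply, β₁_self hD hcone, β₂_self hD hcone, mul_zero, sub_zero] at h5
  rw [β_apply, β₁_mI hD hcone, β₂_mI hD hcone, mul_zero, zero_sub, neg_eq_zero] at h6
  have h7 := fZ_ne hD hcone hD3 hx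
  rw [(mul_eq_zero.1 h5).resolve_right h4, (mul_eq_zero.1 h6).resolve_right h4] at h7
  norm_num at h7

/-- Equivariant fields have equivariant brackets. -/
lemma lieBracket_mI {X Y : V → V} {s t : ℝ} (hX : ∀ z, z ≠ 0 → X (mI z) = s • mI (X z))
    (hY : ∀ z, z ≠ 0 → Y (mI z) = t • mI (Y z)) {x : V} (hx : x ≠ 0)
    (cX : ∀ z, z ≠ 0 → DifferentiableAt ℝ X z) (cY : ∀ z, z ≠ 0 → DifferentiableAt ℝ Y z) :
    lieBracket ℝ X Y (mI x) = (s * t) • mI (lieBracket ℝ X Y x) := by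
  have hIx : mI x ≠ 0 := by
    intro h
    have h1 : ‖mI x‖ ^ 2 = ‖x‖ ^ 2 := by rw [norm_sq_eq, norm_sq_eq]; simp; ring
    rw [h, norm_zero] at h1
    exact hx (by simpa using h1.symm)
  have hne : ∀ᶠ z : V in 𝓝 x, z ≠ 0 := isOpen_compl_singleton.mem_nhds hx
  have key : ∀ {W : V → V} {r : ℝ}, (∀ z, z ≠ 0 → W (mI z) = r • mI (W z)) →
      (∀ z, z ≠ 0 → DifferentiableAt ℝ W z) → ∀ v : V,
      fderiv ℝ W (mI x) (mI v) = r • mI (fderiv ℝ W x v) := by
    intro W r hW cW v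
    have h1 : HasFDerivAt (fun z => W (mI z)) ((fderiv ℝ W (mI x)).comp mI) x :=
      (cW _ hIx).hasFDerivAt.comp x mI.hasFDerivAt
    have h2 : HasFDerivAt (fun z => r • mI (W z)) (r • (mI.comp (fderiv ℝ W x))) x :=
      (mI.hasFDerivAt.comp x (cW x hx).hasFDerivAt).const_smul r
    have h3 : (fun z => W (mI z)) =ᶠ[𝓝 x] fun z => r • mI (W z) := hne.mono hW
    have h4 := (h2.congr_of_eventuallyEq h3).unique h1
    exact (congrArg (fun L : V →L[ℝ] V => L v) h4).symm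
  simp only [lieBracket]
  rw [hX x hx, hY x hx, map_smul, map_smul, key hX cX, key hY cY, map_sub]
  module

theorem no_engel_aux (hE : IsEngel D) : False := by
  have hD3 := hE.2.1
  have hI0 : ∀ x : V, x ≠ 0 → mI x ≠ 0 := by
    intro x hx h
    have h1 : ‖mI x‖ ^ 2 = ‖x‖ ^ 2 := by rw [norm_sq_eq, norm_sq_eq]; simp; ring
    rw [h, norm_zero] at h1
    exact hx (by simpa using h1.symm)
  have eqA : ∀ z : V, z ≠ 0 → fA D (mI z) = (-1 : ℝ) • mI (fA D z) := by
    intro z hz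
    rw [neg_one_smul]
    exact sec_mI hD hcone 1 0 hz
  have eqB : ∀ z : V, z ≠ 0 → fB D (mI z) = (-1 : ℝ) • mI (fB D z) := by
    intro z hz
    rw [neg_one_smul]
    exact sec_mI hD hcone 0 1 hz
  have dA : ∀ z : V, z ≠ 0 → DifferentiableAt ℝ (fA D) z := fun z hz =>
    (fA_contDiffAt hD hcone hz).differentiableAt (by simp)
  have dB : ∀ z : V, z ≠ 0 → DifferentiableAt ℝ (fB D) z := fun z hz =>
    (fB_contDiffAt hD hcone hz).differentiableAt (by simp)
  have dZ : ∀ z : V, z ≠ 0 → DifferentiableAt ℝ (fZ D) z := fun z hz =>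
    (fZ_contDiffAt hD hcone hz).differentiableAt (by simp)
  have eqZ : ∀ z : V, z ≠ 0 → fZ D (mI z) = (1 : ℝ) • mI (fZ D z) := by
    intro z hz
    have h1 := lieBracket_mI hD hcone eqA eqB hz dA dB
    have h2 : ((-1 : ℝ) * -1) = 1 := by norm_num
    rw [h2] at h1
    exact h1
  have e1 : ∀ z v : V, z ≠ 0 → β₁ D (mI z) (mI v) = β₁ D z v := by
    intro z v hz
    rw [β₁_apply, β₁_apply, eqA z hz, eqB z hz]
    simp only [inner_smul_right]
    have h0 : ‖mI z‖ ^ 2 = ‖z‖ ^ 2 := by rw [norm_sq_eq, norm_sq_eq]; simp; ring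
    have h1 : ∀ u w : V, inner ℝ (mI u) (mI w) = inner ℝ u w := by
      intro u w; rw [inner_eq, inner_eq]; simp; ring
    have h2 : ∀ u w : V, inner ℝ (mJ (mI u)) (mI w) = - inner ℝ (mJ u) w := by
      intro u w; rw [inner_eq, inner_eq]; simp; ring
    have h3 : ∀ u w : V, inner ℝ (mK (mI u)) (mI w) = - inner ℝ (mK u) w := by
      intro u w; rw [inner_eq, inner_eq]; simp; ring
    rw [h0, h1, h1, h1, h2, h3]; ring
  have e2 : ∀ z v : V, z ≠ 0 → β₂ D (mI z) (mI v) = β₂ D z v := by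
    intro z v hz
    rw [β₂_apply, β₂_apply, eqA z hz, eqB z hz]
    simp only [inner_smul_right]
    have h0 : ‖mI z‖ ^ 2 = ‖z‖ ^ 2 := by rw [norm_sq_eq, norm_sq_eq]; simp; ring
    have h1 : ∀ u w : V, inner ℝ (mI u) (mI w) = inner ℝ u w := by
      intro u w; rw [inner_eq, inner_eq]; simp; ring
    have h2 : ∀ u w : V, inner ℝ (mJ (mI u)) (mI w) = - inner ℝ (mJ u) w := by
      intro u w; rw [inner_eq, inner_eq]; simp; ring
    have h3 : ∀ u w : V, inner ℝ (mK (mI u)) (mI w) = - inner ℝ (mK u) w := by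
      intro u w; rw [inner_eq, inner_eq]; simp; ring
    rw [h0, h1, h1, h1, h2, h3]; ring
  have e3 : ∀ z v : V, z ≠ 0 → β D (mI z) (mI v) = β D z v := by
    intro z v hz
    rw [β_apply, β_apply, eqZ z hz, one_smul, e1 z _ hz, e1 z _ hz, e2 z _ hz, e2 z _ hz]
  refine no_odd_map (fun x => ((β D x (lieBracket ℝ (fA D) (fZ D) x) : ℝ) : ℂ) +
    ((β D x (lieBracket ℝ (fB D) (fZ D) x) : ℝ) : ℂ) * Complex.I) ?_ ?_ ?_
  · intro x hx
    have cβ := β_contDiffAt hD hcone hx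
    have c1 : ContDiffAt ℝ ∞ (fun x => lieBracket ℝ (fA D) (fZ D) x) x :=
      (fA_contDiffAt hD hcone hx).lieBracket_vectorField (fZ_contDiffAt hD hcone hx) (by simp)
    have c2 : ContDiffAt ℝ ∞ (fun x => lieBracket ℝ (fB D) (fZ D) x) x :=
      (fB_contDiffAt hD hcone hx).lieBracket_vectorField (fZ_contDiffAt hD hcone hx) (by simp)
    have k1 := (cβ.clm_apply c1).continuousAt
    have k2 := (cβ.clm_apply c2).continuousAt
    exact (Complex.continuous_ofReal.continuousAt.comp k1).add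
      ((Complex.continuous_ofReal.continuousAt.comp k2).mul continuousAt_const)
  · intro x hx h0
    have hre := congrArg Complex.re h0
    have him := congrArg Complex.im h0
    simp at hre him
    exact engel_cond hD hcone hE hx hre him
  · intro x hx
    have k1 : lieBracket ℝ (fA D) (fZ D) (mI x) = - mI (lieBracket ℝ (fA D) (fZ D) x) := by
      rw [lieBracket_mI hD hcone eqA eqZ hx dA dZ, mul_one, neg_one_smul]
    have k2 : lieBracket ℝ (fB D) (fZ D) (mI x) = - mI (lieBracket ℝ (fB D) (fZ D) x) := by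
      rw [lieBracket_mI hD hcone eqB eqZ hx dB dZ, mul_one, neg_one_smul]
    simp only [k1, k2, map_neg, e3 x _ hx]
    push_cast
    ring

omit hD hcone in
theorem no_engel (hE : IsEngel D) : ¬ InCone (cone qξ) D := fun hcone =>
  no_engel_aux hE.1 hcone hE

end Pool.Agent.Helper70.Engel
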