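import Pool.Agent.Helper70.EngelFields

/-!
Pulling vector fields back from `M` to the model, and tensoriality of brackets with one-forms.
-/

open scoped Manifold ContDiff Topology
open Set VectorField Bundle Pool.Agent.EngelPerturbation

namespace Pool.Agent.Helper70.Engel

/-- The pull-back of a vector field to the model. -/
noncomputable def pull (X : (m : M) → TangentSpace (𝓡 4) m) (x : V) : V :=
  mpullback (𝓡 4) (𝓡 4) P X x

lemma dP_pull (X : (m : M) → TangentSpace (𝓡 4) m) {x : V} (hx : x ≠ 0) :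
    dP x (pull X x) = X (P x) :=
  (P_invertible hx).self_apply_inverse (X (P x))

lemma pull_contDiffAt {X : (m : M) → TangentSpace (𝓡 4) m} (hX : IsSmoothVF X) {x : V}
    (hx : x ≠ 0) : ContDiffAt ℝ ∞ (pull X) x := by
  rw [← contMDiffAt_vectorSpace_iff_contDiffAt]
  exact (hX.contMDiffAt (x := P x)).mpullback_vectorField_preimage (P_contMDiffAt hx)
    (P_invertible hx) (by simp)

lemma pull_push {A : V → V} (hA : Inv A) {x : V} (hx : x ≠ 0) : pull (push A) x = A x :=
  mpullback_push hA hx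

lemma pull_bracket {X Y : (m : M) → TangentSpace (𝓡 4) m} (hX : IsSmoothVF X)
    (hY : IsSmoothVF Y) {x : V} (hx : x ≠ 0) :
    dP x (lieBracket ℝ (pull X) (pull Y) x) = mlieBracket (𝓡 4) X Y (P x) := by
  have h1 := mpullback_mlieBracket (I := 𝓡 4) (I' := 𝓡 4) (f := P) (x₀ := x) (n := ∞)
    (hX.contMDiffAt.mdifferentiableAt (by simp))
    (hY.contMDiffAt.mdifferentiableAt (by simp))
    (P_contMDiffAt hx) (by rw [minSmoothness_of_isRCLikeNormedField]; exact ENat.LEInfty.out)
  have h2 : lieBracket ℝ (pull X) (pull Y) x = pull (mlieBracket (𝓡 4) X Y) x := by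
    rw [← mlieBracket_eq_lieBracket]
    exact h1.symm
  rw [h2]
  exact dP_pull _ hx

/-- Every tangent vector of `M` comes from the model. -/
lemma exists_dP_eq {x : V} (hx : x ≠ 0) (v : TangentSpace (𝓡 4) (P x)) :
    ∃ w : V, dP x w = v :=
  dP_surj hx v

/-- Brackets of vector fields annihilated by a one-form. -/
lemma form_bracket {β : V → V →L[ℝ] ℝ} {X Y : V → V} {x : V} (hβ : DifferentiableAt ℝ β x)
    (hX : DifferentiableAt ℝ X x) (hY : DifferentiableAt ℝ Y x)
    (h1 : ∀ᶠ z in 𝓝 x, β z (X z) = 0) (h2 : ∀ᶠ z in 𝓝 x, β z (Y z) = 0) :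
    β x (lieBracket ℝ X Y x) = fderiv ℝ β x (Y x) (X x) - fderiv ℝ β x (X x) (Y x) := by
  have e1 : fderiv ℝ (fun z => β z (X z)) x (Y x) = 0 := by
    have : (fun z => β z (X z)) =ᶠ[𝓝 x] fun _ => 0 := h1
    rw [this.fderiv_eq]; simp
  have e2 : fderiv ℝ (fun z => β z (Y z)) x (X x) = 0 := by
    have : (fun z => β z (Y z)) =ᶠ[𝓝 x] fun _ => 0 := h2
    rw [this.fderiv_eq]; simp
  rw [fderiv_clm_apply hβ hX] at e1
  rw [fderiv_clm_apply hβ hY] at e2
  simp only [add_apply, ContinuousLinearMap.comp_apply,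
    ContinuousLinearMap.flip_apply] at e1 e2
  rw [lieBracket, map_sub]
  linarith

/-! ### The model families of subspaces -/

/-- The tangent spaces of the round spheres. -/
noncomputable def SF (x : V) : Submodule ℝ V := LinearMap.ker (innerSL ℝ x : V →ₗ[ℝ] ℝ)

/-- The standard contact planes. -/
noncomputable def Sξ (x : V) : Submodule ℝ V := Submodule.span ℝ {mJ x, mK x}

/-- The first line field. -/
noncomputable def S₁ (x : V) : Submodule ℝ V := Submodule.span ℝ {mJ x}

/-- The second line field. -/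
noncomputable def S₂ (x : V) : Submodule ℝ V := Submodule.span ℝ {mK x}

lemma mem_SF {x v : V} : v ∈ SF x ↔ inner ℝ x v = 0 := by
  rw [SF, LinearMap.mem_ker]
  rfl

lemma inner_eq (x y : V) : inner ℝ x y = x 0 * y 0 + x 1 * y 1 + x 2 * y 2 + x 3 * y 3 := by
  rw [PiLp.inner_apply]
  simp [Fin.sum_univ_four]
  ring

lemma frame_expand (x v : V) : ‖x‖ ^ 2 • v = inner ℝ x v • x + inner ℝ (mI x) v • mI x +
    inner ℝ (mJ x) v • mJ x + inner ℝ (mK x) v • mK x := by
  ext i
  fin_cases i <;> simp [norm_sq_eq, inner_eq] <;> ring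

lemma inner_cL (c : ℂ) (x y : V) : inner ℝ (cL c x) (cL c y) = ‖c‖ ^ 2 * inner ℝ x y := by
  rw [inner_eq, inner_eq, ← Complex.normSq_eq_norm_sq, Complex.normSq_apply]
  simp [cL_apply]
  ring

lemma invS_SF : InvS SF := by
  intro c x hx v hv
  rw [mem_SF] at hv ⊢
  rw [inner_cL, hv, mul_zero]

lemma cL_mJ_mem (c : Γ) (x : V) : ∃ s : ℝ, (s ≠ 0) ∧
    cL ((c : ℂˣ) : ℂ) (mJ x) = s • mJ (cL ((c : ℂˣ) : ℂ) x) ∧
    cL ((c : ℂˣ) : ℂ) (mK x) = s • mK (cL ((c : ℂˣ) : ℂ) x) := by
  rcases Γ_cases c with h | h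
  · refine ⟨1, one_ne_zero, ?_, ?_⟩
    · rw [mJ_cL, Complex.conj_eq_iff_im.2 h, one_smul]
    · rw [mK_cL, Complex.conj_eq_iff_im.2 h, one_smul]
  · have hcc : ∀ y : V, cL ((starRingEnd ℂ) ((c : ℂˣ) : ℂ)) y = - cL ((c : ℂˣ) : ℂ) y := by
      intro y
      ext i; fin_cases i <;> simp [cL_apply, h]
    refine ⟨-1, by norm_num, ?_, ?_⟩
    · rw [mJ_cL, hcc]; simp
    · rw [mK_cL, hcc]; simp

lemma invS_S₁ : InvS S₁ := by
  intro c x _ v hv
  obtain ⟨s, -, h1, -⟩ := cL_mJ_mem c x
  obtain ⟨a, rfl⟩ := Submodule.mem_span_singleton.1 hv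
  rw [map_smul, h1]
  exact Submodule.smul_mem _ _ (Submodule.smul_mem _ _ (Submodule.mem_span_singleton_self _))

lemma invS_S₂ : InvS S₂ := by
  intro c x _ v hv
  obtain ⟨s, -, -, h1⟩ := cL_mJ_mem c x
  obtain ⟨a, rfl⟩ := Submodule.mem_span_singleton.1 hv
  rw [map_smul, h1]
  exact Submodule.smul_mem _ _ (Submodule.smul_mem _ _ (Submodule.mem_span_singleton_self _))

lemma invS_Sξ : InvS Sξ := by
  intro c x _ v hv
  obtain ⟨s, -, h1, h2⟩ := cL_mJ_mem c x
  obtain ⟨a, b, rfl⟩ := Submodule.mem_span_pair.1 hv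
  rw [map_add, map_smul, map_smul, h1, h2]
  refine Submodule.add_mem _ ?_ ?_
  · exact Submodule.smul_mem _ _ (Submodule.smul_mem _ _ (Submodule.subset_span (by simp)))
  · exact Submodule.smul_mem _ _ (Submodule.smul_mem _ _ (Submodule.subset_span (by simp)))

/-- The foliation of `M`. -/
noncomputable def F : (m : M) → Submodule ℝ (TangentSpace (𝓡 4) m) := pushS SF

/-- The leafwise contact structure on `M`. -/
noncomputable def ξ : (m : M) → Submodule ℝ (TangentSpace (𝓡 4) m) := pushS Sξ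

lemma frame_indep {x : V} (hx : x ≠ 0) : LinearIndependent ℝ ![mJ x, mK x] := by
  rw [LinearIndependent.pair_iff]
  intro s t h
  have hn : ‖x‖ ^ 2 ≠ 0 := by positivity
  have h1 : inner ℝ (mJ x) (s • mJ x + t • mK x) = s * ‖x‖ ^ 2 := by
    rw [inner_eq, norm_sq_eq]; simp; ring
  have h2 : inner ℝ (mK x) (s • mJ x + t • mK x) = t * ‖x‖ ^ 2 := by
    rw [inner_eq, norm_sq_eq]; simp; ring
  rw [h, inner_zero_right] at h1 h2
  exact ⟨by simpa [hn] using h1.symm, by simpa [hn] using h2.symm⟩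

lemma isDistribution_ξ : IsDistribution 2 ξ := by
  refine isDistribution_pushS invS_Sξ fun x hx => ?_
  obtain ⟨i, hi⟩ := exists_wt_ne hx
  refine ⟨![fun z => wt i z • mJ z, fun z => wt i z • mK z], ?_, ?_, ?_⟩
  · intro j
    fin_cases j
    · exact inv_wt_J i
    · exact inv_wt_K i
  · have h1 : (fun j => (![fun z => wt i z • mJ z, fun z => wt i z • mK z] :
        Fin 2 → V → V) j x) = ![wt i x • mJ x, wt i x • mK x] := by
      funext j; fin_cases j <;> rfl
    rw [h1, LinearIndependent.pair_iff]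
    intro s t h
    have h2 := LinearIndependent.pair_iff.1 (frame_indep hx) (s * wt i x) (t * wt i x)
      (by rw [mul_smul, mul_smul]; exact h)
    exact ⟨by simpa [hi] using h2.1, by simpa [hi] using h2.2⟩
  · have h1 : ∀ᶠ z in 𝓝 x, wt i z ≠ 0 := (wt_contDiffAt i hx).continuousAt.eventually_ne hi
    filter_upwards [h1] with z hz
    have h2 : (Set.range fun j => (![fun z => wt i z • mJ z, fun z => wt i z • mK z] :
        Fin 2 → V → V) j z) = {wt i z • mJ z, wt i z • mK z} := by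
      have h3 : (fun j => (![fun z => wt i z • mJ z, fun z => wt i z • mK z] :
          Fin 2 → V → V) j z) = ![wt i z • mJ z, wt i z • mK z] := by
        funext j; fin_cases j <;> rfl
      rw [h3, Matrix.range_cons, Matrix.range_cons, Matrix.range_empty, Set.union_empty]
      rfl
    rw [h2, Sξ]
    apply le_antisymm
    · rw [Submodule.span_le]
      rintro v (rfl | rfl)
      · refine Submodule.mem_span_pair.2 ⟨(wt i z)⁻¹, 0, ?_⟩
        rw [smul_smul, inv_mul_cancel₀ hz, one_smul, zero_smul, add_zero]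
      · refine Submodule.mem_span_pair.2 ⟨0, (wt i z)⁻¹, ?_⟩
        rw [zero_smul, smul_smul, inv_mul_cancel₀ hz, one_smul, zero_add]
    · rw [Submodule.span_le]
      rintro v (rfl | rfl)
      · exact Submodule.smul_mem _ _ (Submodule.subset_span (by simp))
      · exact Submodule.smul_mem _ _ (Submodule.subset_span (by simp))

lemma mJ_ne {x : V} (hx : x ≠ 0) : mJ x ≠ 0 := (frame_indep hx).ne_zero 0
lemma mK_ne {x : V} (hx : x ≠ 0) : mK x ≠ 0 := (frame_indep hx).ne_zero 1

lemma isDistribution_L₁ : IsDistribution 1 (pushS S₁) := by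
  refine isDistribution_pushS invS_S₁ fun x hx => ?_
  obtain ⟨i, hi⟩ := exists_wt_ne hx
  refine ⟨fun _ z => wt i z • mJ z, fun _ => inv_wt_J i, ?_, ?_⟩
  · rw [linearIndependent_unique_iff]
    exact smul_ne_zero hi (mJ_ne hx)
  · have h1 : ∀ᶠ z in 𝓝 x, wt i z ≠ 0 := (wt_contDiffAt i hx).continuousAt.eventually_ne hi
    filter_upwards [h1] with z hz
    rw [Set.range_const, S₁]
    exact (Submodule.span_singleton_smul_eq (IsUnit.mk0 _ hz) _).symm

lemma isDistribution_L₂ : IsDistribution 1 (pushS S₂) := by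
  refine isDistribution_pushS invS_S₂ fun x hx => ?_
  obtain ⟨i, hi⟩ := exists_wt_ne hx
  refine ⟨fun _ z => wt i z • mK z, fun _ => inv_wt_K i, ?_, ?_⟩
  · rw [linearIndependent_unique_iff]
    exact smul_ne_zero hi (mK_ne hx)
  · have h1 : ∀ᶠ z in 𝓝 x, wt i z ≠ 0 := (wt_contDiffAt i hx).continuousAt.eventually_ne hi
    filter_upwards [h1] with z hz
    rw [Set.range_const, S₂]
    exact (Submodule.span_singleton_smul_eq (IsUnit.mk0 _ hz) _).symm

lemma splits_ξ : SplitsAsLines ξ := by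
  refine ⟨pushS S₁, pushS S₂, isDistribution_L₁, isDistribution_L₂, fun m => ⟨?_, ?_⟩⟩
  · change S₁ (lift m) ⊓ S₂ (lift m) = ⊥
    rw [eq_bot_iff]
    rintro v ⟨h1, h2⟩
    obtain ⟨a, rfl⟩ := Submodule.mem_span_singleton.1 h1
    obtain ⟨b, hb⟩ := Submodule.mem_span_singleton.1 h2
    have h3 := LinearIndependent.pair_iff.1 (frame_indep (lift_ne m)) a (-b)
      (by rw [neg_smul, hb]; simp)
    simp [h3.1]
  · change S₁ (lift m) ⊔ S₂ (lift m) = Sξ (lift m)
    rw [S₁, S₂, Sξ, ← Submodule.span_union]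
    rfl

lemma Sξ_le_SF (x : V) : Sξ x ≤ SF x := by
  rw [Sξ, Submodule.span_le]
  rintro v (rfl | rfl)
  · change mJ x ∈ SF x
    rw [mem_SF, inner_eq]; simp; ring
  · change mK x ∈ SF x
    rw [mem_SF, inner_eq]; simp; ring

/-- Continuity of the projection: eventual properties pull back. -/
lemma eventually_P {x : V} (hx : x ≠ 0) {p : M → Prop} (h : ∀ᶠ m in 𝓝 (P x), p m) :
    ∀ᶠ z in 𝓝 x, z ≠ 0 ∧ p (P z) := by
  have hne : ∀ᶠ z : V in 𝓝 x, z ≠ 0 := isOpen_compl_singleton.mem_nhds hx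
  exact hne.and ((continuousAt_P hx).eventually h)

/-- `F` is involutive. -/
lemma F_bracket {X Y : (m : M) → TangentSpace (𝓡 4) m} {m : M} (hX : IsSectionNear F m X)
    (hY : IsSectionNear F m Y) : mlieBracket (𝓡 4) X Y m ∈ F m := by
  obtain ⟨x, hx, rfl⟩ := P_surj m
  rw [← pull_bracket hX.1 hY.1 hx, F, mem_pushS invS_SF hx, mem_SF]
  have hβ : DifferentiableAt ℝ (fun z : V => (innerSL ℝ z : V →L[ℝ] ℝ)) x :=
    (innerSL ℝ : V →L[ℝ] V →L[ℝ] ℝ).differentiableAt
  have h1 : ∀ {W : (m : M) → TangentSpace (𝓡 4) m}, IsSectionNear F (P x) W →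
      ∀ᶠ z in 𝓝 x, (innerSL ℝ z : V →L[ℝ] ℝ) (pull W z) = 0 := by
    intro W hW
    filter_upwards [eventually_P hx hW.2] with z hz
    obtain ⟨hz, h2⟩ := hz
    rw [← dP_pull W hz, F, mem_pushS invS_SF hz, mem_SF] at h2
    exact h2
  have h3 := form_bracket hβ ((pull_contDiffAt hX.1 hx).differentiableAt (by simp))
    ((pull_contDiffAt hY.1 hx).differentiableAt (by simp)) (h1 hX) (h1 hY)
  have h4 : fderiv ℝ (fun z : V => (innerSL ℝ z : V →L[ℝ] ℝ)) x =
      (innerSL ℝ : V →L[ℝ] V →L[ℝ] ℝ) :=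
    (innerSL ℝ : V →L[ℝ] V →L[ℝ] ℝ).fderiv
  rw [h4] at h3
  simp only [innerSL_apply_apply] at h3
  rw [h3]
  change inner ℝ (pull Y x) (pull X x) - inner ℝ (pull X x) (pull Y x) = 0
  rw [real_inner_comm, sub_self]

lemma mK_mJ (x : V) : mK (mJ x) - mJ (mK x) = (-2 : ℝ) • mI x := by
  ext i; fin_cases i <;> simp <;> ring

lemma derived_ξ (m : M) : derived ξ m = F m := by
  apply le_antisymm
  · rw [derived, Submodule.span_le]
    rintro v ⟨X, Y, hX, hY, rfl | rfl⟩
    · exact Sξ_le_SF _ hX.2.self_of_nhds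
    · exact F_bracket ⟨hX.1, hX.2.mono fun y hy => Sξ_le_SF _ hy⟩
        ⟨hY.1, hY.2.mono fun y hy => Sξ_le_SF _ hy⟩
  · obtain ⟨x, hx, rfl⟩ := P_surj m
    intro v hv
    obtain ⟨w, rfl⟩ := exists_dP_eq hx v
    rw [F, mem_pushS invS_SF hx, mem_SF] at hv
    obtain ⟨i, hi⟩ := exists_wt_ne hx
    have hsJ : IsSectionNear ξ (P x) (push fun z => wt i z • mJ z) := by
      refine ⟨push_contMDiff (inv_wt_J i), Filter.Eventually.of_forall fun m => ?_⟩
      change wt i (lift m) • mJ (lift m) ∈ Sξ (lift m)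
      exact Submodule.smul_mem _ _ (Submodule.subset_span (by simp))
    have hsK : IsSectionNear ξ (P x) (push fun z => wt i z • mK z) := by
      refine ⟨push_contMDiff (inv_wt_K i), Filter.Eventually.of_forall fun m => ?_⟩
      change wt i (lift m) • mK (lift m) ∈ Sξ (lift m)
      exact Submodule.smul_mem _ _ (Submodule.subset_span (by simp))
    have hJ : dP x (mJ x) ∈ derived ξ (P x) := by
      have h1 : push (fun z => wt i z • mJ z) (P x) ∈ derived ξ (P x) :=
        Submodule.subset_span ⟨_, _, hsJ, hsJ, Or.inl rfl⟩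
      rw [← dP_apply_inv (inv_wt_J i) hx] at h1
      have h2 := Submodule.smul_mem _ (wt i x)⁻¹ h1
      rwa [← map_smul, smul_smul, inv_mul_cancel₀ hi, one_smul] at h2
    have hK : dP x (mK x) ∈ derived ξ (P x) := by
      have h1 : push (fun z => wt i z • mK z) (P x) ∈ derived ξ (P x) :=
        Submodule.subset_span ⟨_, _, hsK, hsK, Or.inl rfl⟩
      rw [← dP_apply_inv (inv_wt_K i) hx] at h1
      have h2 := Submodule.smul_mem _ (wt i x)⁻¹ h1
      rwa [← map_smul, smul_smul, inv_mul_cancel₀ hi, one_smul] at h2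
    have hB : dP x
        (lieBracket ℝ (fun z => wt i z • mJ z) (fun z => wt i z • mK z) x) ∈ derived ξ (P x) := by
      rw [← mlieBracket_push (inv_wt_J i) (inv_wt_K i) hx]
      exact Submodule.subset_span ⟨_, _, hsJ, hsK, Or.inr rfl⟩
    have hdw : DifferentiableAt ℝ (wt i) x := (wt_contDiffAt i hx).differentiableAt (by simp)
    obtain ⟨a, b, hbr⟩ : ∃ a b : ℝ,
        lieBracket ℝ (fun z => wt i z • mJ z) (fun z => wt i z • mK z) x =
        a • mK x - b • mJ x + (wt i x * wt i x * (-2)) • mI x := by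
      refine ⟨fderiv ℝ (wt i) x (wt i x • mJ x), fderiv ℝ (wt i) x (wt i x • mK x), ?_⟩
      rw [lieBracket]
      rw [fderiv_fun_smul hdw mK.differentiableAt, fderiv_fun_smul hdw mJ.differentiableAt]
      simp only [ContinuousLinearMap.fderiv, add_apply,
        smul_apply, ContinuousLinearMap.smulRight_apply, map_smul]
      have h3 := mK_mJ x
      have h4 : mK (mJ x) = mJ (mK x) + (-2 : ℝ) • mI x := by rw [← h3]; abel
      rw [h4]
      module
    have hI : dP x (mI x) ∈ derived ξ (P x) := by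
      have h5 : mI x = (wt i x * wt i x * (-2))⁻¹ •
          (lieBracket ℝ (fun z => wt i z • mJ z) (fun z => wt i z • mK z) x
          - a • mK x + b • mJ x) := by
        rw [hbr]
        have h6 : a • mK x - b • mJ x + (wt i x * wt i x * (-2)) • mI x -
            a • mK x + b • mJ x = (wt i x * wt i x * (-2)) • mI x := by
          abel
        rw [h6, smul_smul, inv_mul_cancel₀ (by simp [hi]), one_smul]
      rw [h5, map_smul, map_add, map_sub, map_smul, map_smul]
      exact Submodule.smul_mem _ _ (Submodule.add_mem _ (Submodule.sub_mem _ hB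
        (Submodule.smul_mem _ _ hK)) (Submodule.smul_mem _ _ hJ))
    have hn : ‖x‖ ^ 2 ≠ 0 := by positivity
    have h7 : w = (‖x‖ ^ 2)⁻¹ • (inner ℝ (mI x) w • mI x + inner ℝ (mJ x) w • mJ x +
        inner ℝ (mK x) w • mK x) := by
      have h8 := frame_expand x w
      rw [hv, zero_smul, zero_add] at h8
      rw [← h8, smul_smul, inv_mul_cancel₀ hn, one_smul]
    rw [h7, map_smul, map_add, map_add, map_smul, map_smul, map_smul]
    exact Submodule.smul_mem _ _ (Submodule.add_mem _ (Submodule.add_mem _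
      (Submodule.smul_mem _ _ hI) (Submodule.smul_mem _ _ hJ)) (Submodule.smul_mem _ _ hK))

lemma leafwiseContact : IsLeafwiseContact F ξ :=
  ⟨isDistribution_ξ, fun m => Sξ_le_SF (lift m), derived_ξ⟩

end Pool.Agent.Helper70.Engel
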