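import Pool.Agent.Helper70.EngelModel

/-!
The closed manifold `(ℂ² ∖ 0)/⟨I, 2⟩`.
-/

open scoped Manifold ContDiff Topology
open Set

namespace Pool.Agent.Helper70.Engel

instance : LocallyCompactSpace U := U.isOpen.locallyCompactSpace

/-- The quotient manifold. -/
abbrev M : Type := MulAction.orbitRel.Quotient Γ U

/-- A base point. -/
noncomputable def e0 : U := ⟨!₂[1, 0, 0, 0], by
  intro h
  have := congrArg (fun z : V => z 0) h
  simp at this⟩

open Classical in
/-- The projection from the model space (with a junk value at the origin). -/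
noncomputable def P (v : V) : M := if h : v ≠ 0 then Quotient.mk'' ⟨v, h⟩ else Quotient.mk'' e0

lemma P_of_ne {v : V} (h : v ≠ 0) : P v = Quotient.mk'' (⟨v, h⟩ : U) := dif_pos h

lemma P_smul (c : Γ) {v : V} (h : v ≠ 0) : P (cL ((c : ℂˣ) : ℂ) v) = P v := by
  rw [P_of_ne h, P_of_ne (cL_ne_zero (Units.ne_zero _) h)]
  exact Quotient.sound' ⟨c, rfl⟩

lemma P_eq {v w : V} (hv : v ≠ 0) (hw : w ≠ 0) (h : P v = P w) :
    ∃ c : Γ, cL ((c : ℂˣ) : ℂ) v = w := by
  rw [P_of_ne hv, P_of_ne hw] at h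
  obtain ⟨c, hc⟩ := Quotient.exact' h.symm
  exact ⟨c, congrArg Subtype.val hc⟩

lemma P_surj (m : M) : ∃ v : V, v ≠ 0 ∧ P v = m := by
  obtain ⟨⟨v, hv⟩, rfl⟩ := Quotient.mk''_surjective m
  exact ⟨v, hv, P_of_ne hv⟩

lemma continuousAt_P {v : V} (h : v ≠ 0) : ContinuousAt P v := by
  have h1 : ContinuousOn P {0}ᶜ := by
    rw [continuousOn_iff_continuous_domRestrict]
    have : ({0}ᶜ : Set V).domRestrict P = fun u : U => (Quotient.mk'' u : M) := by
      ext u
      exact P_of_ne u.2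
    rw [this]
    exact continuous_quotient_mk'
  exact h1.continuousAt (isOpen_compl_singleton.mem_nhds h)

lemma atlas_symm {e : OpenPartialHomeomorph M V} (he : e ∈ atlas V M) {v : V} (hv : v ∈ e.target) :
    v ≠ 0 ∧ e.symm v = P v := by
  obtain ⟨q, rfl⟩ := he
  set x : U := Quotient.mk_surjective.hasRightInverse.choose q with hx
  rw [OpenPartialHomeomorph.trans_target] at hv
  obtain ⟨hv1, hv2⟩ := hv
  have hval : (((chartAt V x).symm v : U) : V) = v := (chartAt V x).right_inv hv1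
  have hne : v ≠ 0 := by
    rw [← hval]
    exact ((chartAt V x).symm v).2
  refine ⟨hne, ?_⟩
  rw [OpenPartialHomeomorph.trans_symm_eq_symm_trans_symm, OpenPartialHomeomorph.coe_trans,
    Function.comp_apply, P_of_ne hne]
  rw [IsLocalHomeomorph.localInverseAt_symm]
  change Quotient.mk'' _ = _
  congr 1
  exact Subtype.ext hval

/-- In a chart the projection is locally multiplication by an element of the group. -/
lemma chart_comp_P {e : OpenPartialHomeomorph M V} (he : e ∈ atlas V M) {x : V} (hx : x ≠ 0)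
    (hxe : P x ∈ e.source) :
    ∃ c : Γ, cL ((c : ℂˣ) : ℂ) x = e (P x) ∧ ∀ᶠ z in 𝓝 x, P z ∈ e.source ∧
      e (P z) = cL ((c : ℂˣ) : ℂ) z := by
  have hy : e (P x) ∈ e.target := e.map_source hxe
  obtain ⟨hy0, hyP⟩ := atlas_symm he hy
  rw [e.left_inv hxe] at hyP
  obtain ⟨c, hc⟩ := P_eq hx hy0 hyP
  refine ⟨c, hc, ?_⟩
  have h1 : ∀ᶠ z in 𝓝 x, cL ((c : ℂˣ) : ℂ) z ∈ e.target := by
    have : ContinuousAt (fun z => cL ((c : ℂˣ) : ℂ) z) x := (cL _).continuous.continuousAt
    refine this.eventually ?_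
    change ∀ᶠ y in 𝓝 (cL ((c : ℂˣ) : ℂ) x), y ∈ e.target
    rw [hc]
    exact e.open_target.mem_nhds hy
  have h2 : ∀ᶠ z in 𝓝 x, z ≠ 0 := isOpen_compl_singleton.mem_nhds hx
  filter_upwards [h1, h2] with z hz hz0
  obtain ⟨-, h3⟩ := atlas_symm he hz
  rw [P_smul c hz0] at h3
  rw [← h3]
  exact ⟨e.map_target hz, e.right_inv hz⟩

instance : IsManifold (𝓡 4) ∞ M := by
  refine isManifold_of_contDiffOn _ _ _ ?_
  intro e e' he he' v hv
  simp only [modelWithCornersSelf_coe, modelWithCornersSelf_coe_symm, preimage_id_eq, id_eq,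
    range_id, inter_univ, OpenPartialHomeomorph.trans_source,
    OpenPartialHomeomorph.symm_source, mem_inter_iff, mem_preimage] at hv
  obtain ⟨hv1, hv2⟩ := hv
  obtain ⟨hv0, hvP⟩ := atlas_symm he hv1
  rw [hvP] at hv2
  obtain ⟨c, hc, hev⟩ := chart_comp_P he' hv0 hv2
  have h1 : ∀ᶠ z in 𝓝 v, z ∈ e.target := e.open_target.mem_nhds hv1
  have h2 : (fun z => (e.symm ≫ₕ e') z) =ᶠ[𝓝 v] fun z => cL ((c : ℂˣ) : ℂ) z := by
    filter_upwards [hev, h1] with z hz hz1
    obtain ⟨-, hzP⟩ := atlas_symm he hz1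
    simp only [OpenPartialHomeomorph.coe_trans, Function.comp_apply, hzP, hz.2]
  have h3 : ContDiffAt ℝ ∞ (fun z => (e.symm ≫ₕ e') z) v :=
    (cL ((c : ℂˣ) : ℂ)).contDiff.contDiffAt.congr_of_eventuallyEq h2
  simpa [Function.comp_def] using h3.contDiffWithinAt

instance : T2Space M := inferInstance

instance : ConnectedSpace M := by
  have h1 : IsConnected ({0}ᶜ : Set V) := isConnected_compl_singleton_of_one_lt_rank (by
    rw [← Module.finrank_eq_rank]; simp) 0
  have h2 : ConnectedSpace U := isConnected_iff_connectedSpace.1 h1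
  exact Quotient.mk_surjective.connectedSpace continuous_quotient_mk'

/-- Every point of the quotient has a representative in the shell `1 ≤ ‖v‖ ≤ 2`. -/
lemma exists_shell (m : M) : ∃ v : V, v ∈ Metric.closedBall (0 : V) 2 \ Metric.ball 0 1 ∧ P v = m := by
  obtain ⟨v, hv, rfl⟩ := P_surj m
  have hpos : 0 < ‖v‖ := norm_pos_iff.2 hv
  obtain ⟨n, hn1, hn2⟩ := exists_mem_Ico_zpow hpos (one_lt_two (α := ℝ))
  have hu : ((Units.mk0 (2 : ℂ) two_ne_zero) ^ (-n) : ℂˣ) ∈ Γ := by
    refine ⟨-n, ?_⟩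
    rw [Units.val_zpow_eq_zpow_val, Units.val_mk0, ← zpow_natCast, ← zpow_mul, mul_comm, zpow_mul]
    norm_num
  refine ⟨cL (2 ^ (-n)) v, ?_, ?_⟩
  · have h1 : ‖cL (2 ^ (-n)) v‖ = (2 ^ n)⁻¹ * ‖v‖ := by
      rw [cL_norm, norm_zpow, zpow_neg]; norm_num
    have h2 : (0 : ℝ) < 2 ^ n := by positivity
    constructor
    · rw [mem_closedBall_zero_iff, h1, inv_mul_le_iff₀ h2, mul_comm, ← zpow_one_add₀ two_ne_zero, add_comm]
      exact hn2.le
    · rw [mem_ball_zero_iff, not_lt, h1, le_inv_mul_iff₀ h2, mul_one]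
      exact hn1
  · have := P_smul ⟨_, hu⟩ hv
    rw [← this]
    simp

instance : CompactSpace M := by
  have hK : IsCompact (Metric.closedBall (0 : V) 2 \ Metric.ball 0 1) :=
    (isCompact_closedBall _ _).diff Metric.isOpen_ball
  have h1 : ContinuousOn P (Metric.closedBall (0 : V) 2 \ Metric.ball 0 1) := by
    intro v hv
    refine (continuousAt_P ?_).continuousWithinAt
    rintro rfl
    exact hv.2 (by simp)
  have h2 := hK.image_of_continuousOn h1
  rw [← isCompact_univ_iff]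
  convert h2
  symm
  rw [eq_univ_iff_forall]
  intro m
  obtain ⟨v, hv, rfl⟩ := exists_shell m
  exact mem_image_of_mem _ hv

end Pool.Agent.Helper70.Engel
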